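import Pool.Agent.Helper93.EX.Defs
import Pool.Agent.Helper93.AO.Open

/-!
# EX, block D: the deterministic combination

Upper bound: `(C ell^(4/3) + 1) / ell` is `4 (C/3)^(3/4)` at `ell = (3/C)^(3/4)`. Lower bound: `ell` slightly smaller, `m` near the derivative
`(4/3) C ell^(1/3)` of `C ell^(4/3)`.
-/

open MeasureTheory Real Set Filter Topology

set_option autoImplicit false

namespace Pool.Agent.Helper93.EX

open Pool.Agent.Helper93.AO (gR)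

section real

variable {C : ℝ}

private noncomputable def x0 (C : ℝ) : ℝ := (3 / C) ^ (3 / 4 : ℝ)

private theorem x0_pos (hC : 0 < C) : 0 < x0 C := rpow_pos_of_pos (by positivity) _

private theorem x0_pow (hC : 0 < C) : x0 C ^ (4 / 3 : ℝ) = 3 / C := by
  unfold x0
  rw [← rpow_mul (by positivity)]
  norm_num

private theorem x0_inv (hC : 0 < C) : (x0 C)⁻¹ = (C / 3) ^ (3 / 4 : ℝ) := by
  unfold x0
  rw [← inv_rpow (by positivity)]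
  congr 1
  rw [inv_div]

private theorem val1 (hC : 0 < C) : (C * x0 C ^ (4 / 3 : ℝ) + 1) / x0 C = 4 * (C / 3) ^ (3 / 4 : ℝ) := by
  rw [x0_pow hC, mul_div_cancel₀ _ hC.ne', div_eq_mul_inv, x0_inv hC]
  norm_num

private theorem pow_split {x : ℝ} (hx : 0 < x) : x * x ^ (1 / 3 : ℝ) = x ^ (4 / 3 : ℝ) := by
  have h : x ^ (4 / 3 : ℝ) = x ^ ((1 : ℝ) + 1 / 3) := by norm_num
  rw [h, rpow_add hx, rpow_one]

private theorem val2 (hC : 0 < C) : 4 / 3 * C * x0 C ^ (1 / 3 : ℝ) = 4 * (C / 3) ^ (3 / 4 : ℝ) := by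
  have h0 := x0_pos hC
  have h1 := pow_split h0
  rw [x0_pow hC] at h1
  rw [← x0_inv hC]
  field_simp
  field_simp at h1
  nlinarith [h1]

/-- choice of `ell` for the upper bound -/
private theorem choice_up (hC : 0 < C) {ε : ℝ} (hε : 0 < ε) :
    ∃ ell : ℚ, 0 < ell ∧ (C * (ell : ℝ) ^ (4 / 3 : ℝ) + 1) / ell ≤ 4 * (C / 3) ^ (3 / 4 : ℝ) + ε := by
  have h0 := x0_pos hC
  have hc : ContinuousAt (fun x : ℝ => (C * x ^ (4 / 3 : ℝ) + 1) / x) (x0 C) := by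
    apply ContinuousAt.div _ continuousAt_id h0.ne'
    exact (continuousAt_const.mul (continuousAt_id.rpow_const (Or.inl h0.ne'))).add continuousAt_const
  have h1 : ∀ᶠ x in 𝓝 (x0 C), (C * x ^ (4 / 3 : ℝ) + 1) / x < 4 * (C / 3) ^ (3 / 4 : ℝ) + ε := by
    refine hc.eventually_lt continuousAt_const ?_
    rw [val1 hC]
    linarith
  have h2 : ∀ᶠ x in 𝓝 (x0 C), 0 < x := lt_mem_nhds h0
  obtain ⟨δ, hδ, h3⟩ := Metric.eventually_nhds_iff.mp (h1.and h2)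
  obtain ⟨q, hq1, hq2⟩ := exists_rat_btwn (show x0 C < x0 C + δ by linarith)
  have h4 := h3 (y := (q : ℝ)) (by rw [Real.dist_eq, abs_lt]; constructor <;> linarith)
  exact ⟨q, by exact_mod_cast h4.2, h4.1.le⟩

/-- choice of `ell` for the lower bound -/
private theorem choice_lo (hC : 0 < C) {ε : ℝ} (hε : 0 < ε) :
    ∃ ell : ℚ, 0 < ell ∧ C / 3 * (ell : ℝ) ^ (4 / 3 : ℝ) < 1 ∧ 4 * (C / 3) ^ (3 / 4 : ℝ) - ε ≤ 4 / 3 * C * (ell : ℝ) ^ (1 / 3 : ℝ) := by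
  have h0 := x0_pos hC
  have hc : ContinuousAt (fun x : ℝ => 4 / 3 * C * x ^ (1 / 3 : ℝ)) (x0 C) :=
    continuousAt_const.mul (continuousAt_id.rpow_const (Or.inl h0.ne'))
  have h1 : ∀ᶠ x in 𝓝 (x0 C), 4 * (C / 3) ^ (3 / 4 : ℝ) - ε < 4 / 3 * C * x ^ (1 / 3 : ℝ) := by
    refine continuousAt_const.eventually_lt hc ?_
    rw [val2 hC]
    linarith
  have h2 : ∀ᶠ x in 𝓝 (x0 C), 0 < x := lt_mem_nhds h0
  obtain ⟨δ, hδ, h3⟩ := Metric.eventually_nhds_iff.mp (h1.and h2)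
  obtain ⟨q, hq1, hq2⟩ := exists_rat_btwn (show x0 C - δ < x0 C by linarith)
  have h4 := h3 (y := (q : ℝ)) (by rw [Real.dist_eq, abs_lt]; constructor <;> linarith)
  refine ⟨q, by exact_mod_cast h4.2, ?_, h4.1.le⟩
  have h5 : (q : ℝ) ^ (4 / 3 : ℝ) < x0 C ^ (4 / 3 : ℝ) := rpow_lt_rpow h4.2.le hq2 (by norm_num)
  rw [x0_pow hC] at h5
  calc C / 3 * (q : ℝ) ^ (4 / 3 : ℝ) < C / 3 * (3 / C) := by
        apply mul_lt_mul_of_pos_left h5 (by positivity)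
    _ = 1 := by field_simp

/-- the derivative -/
private theorem deriv_bd (C : ℝ) {x η : ℝ} (hx : 0 < x) (hη : 0 < η) :
    ∃ δ : ℝ, 0 < δ ∧ ∀ h : ℝ, |h| < δ → |C * (x + h) ^ (4 / 3 : ℝ) - C * x ^ (4 / 3 : ℝ) - h * (4 / 3 * C * x ^ (1 / 3 : ℝ))| ≤ η * |h| := by
  have h1 : HasDerivAt (fun y : ℝ => C * y ^ (4 / 3 : ℝ)) (C * (4 / 3 * x ^ ((4 / 3 : ℝ) - 1))) x :=
    (Real.hasDerivAt_rpow_const (Or.inl hx.ne')).const_mul C
  have h2 := (hasDerivAt_iff_isLittleO_nhds_zero.mp h1).bound hη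
  obtain ⟨δ, hδ, h3⟩ := Metric.eventually_nhds_iff.mp h2
  refine ⟨δ, hδ, fun h hh => ?_⟩
  have h4 := h3 (y := h) (by rw [Real.dist_eq, sub_zero]; exact hh)
  simp only [Real.norm_eq_abs, smul_eq_mul] at h4
  have h5 : ((4 / 3 : ℝ) - 1) = 1 / 3 := by norm_num
  rw [h5] at h4
  have h6 : h * (4 / 3 * C * x ^ (1 / 3 : ℝ)) = h * (C * (4 / 3 * x ^ (1 / 3 : ℝ))) := by ring
  rw [h6]
  exact h4

/-- all parameters for the lower bound -/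
private theorem params (hC : 0 < C) {ε : ℝ} (hε : 0 < ε) :
    ∃ (ell h m e e1 e2 e3 : ℚ) (δ : ℝ), 0 < h ∧ h < ell ∧ 0 < m ∧ 0 < e ∧ 0 < e1 ∧ 0 < e2 ∧ e2 ≤ 1 ∧ 0 < e3 ∧
      (2 / e ^ 2 + ell ^ 2 / e2) * e1 ^ 2 ≤ e2 / 4 ∧ 0 < δ ∧
      (C * ((ell : ℝ) + h) ^ (4 / 3 : ℝ) - C * (ell : ℝ) ^ (4 / 3 : ℝ) + 2 * δ ≤ h * (m + e1) - e3) ∧
      (C * ((ell : ℝ) - h) ^ (4 / 3 : ℝ) - C * (ell : ℝ) ^ (4 / 3 : ℝ) + 2 * δ ≤ -(h * (m - e1)) - e3) ∧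
      ((ell : ℝ) * m - C * (ell : ℝ) ^ (4 / 3 : ℝ) + δ ≤ 1 - e2) ∧
      4 * (C / 3) ^ (3 / 4 : ℝ) - ε ≤ (m : ℝ) - e := by
  obtain ⟨ell, hell, hg, hF⟩ := choice_lo hC (show 0 < ε / 4 by positivity)
  have hellR : (0 : ℝ) < ell := by exact_mod_cast hell
  set F' : ℝ := 4 / 3 * C * (ell : ℝ) ^ (1 / 3 : ℝ) with hF'
  have hF'0 : 0 < F' := by positivity
  set gap : ℝ := 1 - C / 3 * (ell : ℝ) ^ (4 / 3 : ℝ) with hgap
  have hgap0 : 0 < gap := by linarith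
  have hid : (ell : ℝ) * F' - C * (ell : ℝ) ^ (4 / 3 : ℝ) = 1 - gap := by
    have h1 := pow_split hellR
    have h2 : (ell : ℝ) * F' = 4 / 3 * C * ((ell : ℝ) * (ell : ℝ) ^ (1 / 3 : ℝ)) := by rw [hF']; ring
    rw [h2, h1, hgap]
    ring
  -- e2
  obtain ⟨e2, he2a, he2b⟩ := exists_rat_btwn (show (0 : ℝ) < min 1 (gap / 2) from lt_min one_pos (div_pos hgap0 two_pos))
  have he2 : 0 < e2 := by exact_mod_cast he2a
  have he2R : (0 : ℝ) < e2 := he2a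
  have he2_1 : e2 ≤ 1 := by
    have : (e2 : ℝ) ≤ 1 := he2b.le.trans (min_le_left _ _)
    exact_mod_cast this
  have he2_g : (e2 : ℝ) ≤ gap / 2 := he2b.le.trans (min_le_right _ _)
  -- e
  obtain ⟨e, hea, heb⟩ := exists_rat_btwn (show (0 : ℝ) < ε / 4 by positivity)
  have he : 0 < e := by exact_mod_cast hea
  -- e1
  set Q : ℚ := 2 / e ^ 2 + ell ^ 2 / e2 with hQ
  have hQ0 : 0 < Q := by positivity
  set e1 : ℚ := min 1 (e2 / (4 * Q)) with he1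
  have he1_0 : 0 < e1 := lt_min one_pos (div_pos he2 (mul_pos (by norm_num) hQ0))
  have he1_1 : e1 ≤ 1 := min_le_left _ _
  have he1_2 : e1 ≤ e2 / (4 * Q) := min_le_right _ _
  have hcond : Q * e1 ^ 2 ≤ e2 / 4 := by
    calc Q * e1 ^ 2 ≤ Q * (e1 * 1) := by
          rw [pow_two]
          exact mul_le_mul_of_nonneg_left (mul_le_mul_of_nonneg_left he1_1 he1_0.le) hQ0.le
      _ ≤ Q * (e2 / (4 * Q) * 1) := by
          apply mul_le_mul_of_nonneg_left _ hQ0.le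
          apply mul_le_mul_of_nonneg_right he1_2 zero_le_one
      _ = e2 / 4 := by field_simp
  have he1R : (0 : ℝ) < e1 := by exact_mod_cast he1_0
  -- h
  obtain ⟨δ, hδ, hd⟩ := deriv_bd C hellR (show (0 : ℝ) < e1 / 8 by positivity)
  obtain ⟨h, hha, hhb⟩ := exists_rat_btwn (show (0 : ℝ) < min (ell : ℝ) δ from lt_min hellR hδ)
  have hh0 : 0 < h := by exact_mod_cast hha
  have hhR : (0 : ℝ) < h := hha
  have hhl : h < ell := by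
    have : (h : ℝ) < ell := hhb.trans_le (min_le_left _ _)
    exact_mod_cast this
  have hhd : (h : ℝ) < δ := hhb.trans_le (min_le_right _ _)
  have hp := hd h (by rw [abs_of_pos hhR]; exact hhd)
  have hm := hd (-h) (by rw [abs_neg, abs_of_pos hhR]; exact hhd)
  rw [abs_neg, abs_of_pos hhR] at hm
  rw [abs_of_pos hhR] at hp
  rw [← sub_eq_add_neg] at hm
  have hp' := (abs_le.mp hp).2
  have hm' := (abs_le.mp hm).2
  rw [← hF'] at hp' hm'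
  -- m
  set η : ℝ := min (e1 / 8) (min (gap / (8 * ell)) (ε / 4)) with hη
  have hη0 : 0 < η := lt_min (div_pos he1R (by norm_num)) (lt_min (div_pos hgap0 (mul_pos (by norm_num) hellR)) (div_pos hε (by norm_num)))
  have hη1 : η ≤ e1 / 8 := min_le_left _ _
  have hη2 : η ≤ gap / (8 * ell) := (min_le_right _ _).trans (min_le_left _ _)
  have hη3 : η ≤ ε / 4 := (min_le_right _ _).trans (min_le_right _ _)
  obtain ⟨m, hma, hmb⟩ := exists_rat_btwn (show F' < F' + η by linarith)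
  have hm0 : 0 < m := by
    have : (0 : ℝ) < m := hF'0.trans hma
    exact_mod_cast this
  have hell2 : (ell : ℝ) * η ≤ gap / 8 := by
    calc (ell : ℝ) * η ≤ ell * (gap / (8 * ell)) := mul_le_mul_of_nonneg_left hη2 hellR.le
      _ = gap / 8 := by field_simp
  have hhη : (h : ℝ) * η ≤ h * (e1 / 8) := mul_le_mul_of_nonneg_left hη1 hhR.le
  have hhm1 : (h : ℝ) * F' ≤ h * m := mul_le_mul_of_nonneg_left hma.le hhR.le
  have hhm2 : (h : ℝ) * m ≤ h * (F' + η) := mul_le_mul_of_nonneg_left hmb.le hhR.le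
  have helm : (ell : ℝ) * m ≤ ell * (F' + η) := mul_le_mul_of_nonneg_left hmb.le hellR.le
  refine ⟨ell, h, m, e, e1, e2, h * e1 / 8, min (h * e1 / 16) (gap / 8), hh0, hhl, hm0, he, he1_0, he2, he2_1, div_pos (mul_pos hh0 he1_0) (by norm_num), hcond,
    lt_min (div_pos (mul_pos hhR he1R) (by norm_num)) (div_pos hgap0 (by norm_num)), ?_, ?_, ?_, ?_⟩
  · have h1 := min_le_left ((h : ℝ) * e1 / 16) (gap / 8)
    push_cast
    have h2 : (0 : ℝ) < h * e1 := mul_pos hhR he1R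
    linarith [h1, h2]
  · have h1 := min_le_left ((h : ℝ) * e1 / 16) (gap / 8)
    push_cast
    have h2 : (0 : ℝ) < h * e1 := mul_pos hhR he1R
    linarith [h1, h2]
  · have h1 := min_le_right ((h : ℝ) * e1 / 16) (gap / 8)
    linarith [h1]
  · linarith

end real

private theorem comb_abs {σ : ℝ} {E : ℝ → ℝ × ℝ → ℝ} {C : ℝ} (hσ : σ = 1 ∨ σ = -1) (hC : 0 < C)
    (M : ℕ → ℕ → ℝ → ℝ × ℝ → ℝ) (X : ℕ → ℕ → ℝ → ℝ)
    (hT : ∀ ε : ℝ, 0 < ε → ∃ a₀ : ℕ, ∀ a : ℕ, a₀ ≤ a → ∃ p₀ : ℕ, ∀ p : ℕ, p₀ ≤ p → ∀ R ∈ Icc ((2 : ℝ) ^ p) (2 ^ (p + 1)), ∀ c : ℝ × ℝ,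
      |E R c - sqrt R * M a p R c| ≤ ε * (sqrt R * Lx p ^ (1 / 4 : ℝ)))
    (hR : ∀ ell : ℝ, 0 < ell → ∀ ε : ℝ, 0 < ε → ∃ a₀ : ℕ, ∀ a : ℕ, a₀ ≤ a → ∃ p₀ : ℕ, ∀ p : ℕ, p₀ ≤ p →
      |X a p (ell * Lx p ^ (3 / 4 : ℝ)) / Lx p - C * ell ^ (4 / 3 : ℝ)| ≤ ε)
    (hU : ∀ (ell ε : ℚ) (a : ℕ), 0 < ell → 0 < ε → ∃ p₀ : ℕ, ∀ p : ℕ, p₀ ≤ p → ∀ R ∈ Icc ((2 : ℝ) ^ p) (2 ^ (p + 1)), ∀ c : ℝ × ℝ,
      σ * (ell * Lx p ^ (3 / 4 : ℝ)) * M a p R c ≤ X a p (ell * Lx p ^ (3 / 4 : ℝ)) + (1 + ε) * Lx p)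
    (hL : ∀ (ell h m e e1 e2 e3 : ℚ) (a : ℕ), 0 < h → h < ell → 0 < m → 0 < e → 0 < e1 → 0 < e2 → e2 ≤ 1 → 0 < e3 → (2 / e ^ 2 + ell ^ 2 / e2) * e1 ^ 2 ≤ e2 / 4 →
      ∃ p₀ : ℕ, ∀ p : ℕ, p₀ ≤ p →
        X a p ((ell + h) * Lx p ^ (3 / 4 : ℝ)) - X a p (ell * Lx p ^ (3 / 4 : ℝ)) ≤ (h * (m + e1) - e3) * Lx p →
        X a p ((ell - h) * Lx p ^ (3 / 4 : ℝ)) - X a p (ell * Lx p ^ (3 / 4 : ℝ)) ≤ (-(h * (m - e1)) - e3) * Lx p →
        ell * m * Lx p - X a p (ell * Lx p ^ (3 / 4 : ℝ)) ≤ (1 - e2) * Lx p →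
        ∀ c : ℝ × ℝ, ∃ R ∈ Icc ((2 : ℝ) ^ p) (2 ^ (p + 1)), (m - e) * Lx p ^ (1 / 4 : ℝ) ≤ σ * M a p R c) :
    (∀ ε : ℝ, 0 < ε → ∃ R₀ : ℝ, ∀ R : ℝ, R₀ ≤ R → ∀ c : ℝ × ℝ, σ * E R c ≤ (4 * (C / 3) ^ (3 / 4 : ℝ) + ε) * gR R) ∧
    (∀ ε : ℝ, 0 < ε → ∀ c : ℝ × ℝ, ∀ R₀ : ℝ, ∃ R : ℝ, R₀ ≤ R ∧ (4 * (C / 3) ^ (3 / 4 : ℝ) - ε) * gR R ≤ σ * E R c) := by
  have hT0' : 0 < 4 * (C / 3) ^ (3 / 4 : ℝ) := by positivity
  obtain ⟨T, hTdef⟩ : ∃ T : ℝ, T = 4 * (C / 3) ^ (3 / 4 : ℝ) := ⟨_, rfl⟩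
  have hT0 : 0 < T := hTdef ▸ hT0'
  rw [← hTdef]
  have hlog2 : 0 < log 2 := log_pos one_lt_two
  have habs : ∀ x y : ℝ, |x - y| ≤ |x - y| → σ * x ≤ σ * y + |x - y| ∧ σ * y - |x - y| ≤ σ * x := by
    intro x y _
    have h1 := abs_le.mp (le_refl |x - y|)
    rcases hσ with h | h <;> subst h <;> constructor <;> linarith [h1.1, h1.2]
  constructor
  · intro ε hε
    obtain ⟨ell, hell, hv⟩ := choice_up hC (show 0 < ε / 4 by positivity)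
    rw [← hTdef] at hv
    have hellR : (0 : ℝ) < ell := by exact_mod_cast hell
    obtain ⟨a1, ha1⟩ := hT (ε / 4) (by positivity)
    obtain ⟨a2, ha2⟩ := hR ell hellR (ell * ε / 4) (by positivity)
    obtain ⟨p1, hp1⟩ := ha1 (max a1 a2) (le_max_left _ _)
    obtain ⟨p2, hp2⟩ := ha2 (max a1 a2) (le_max_right _ _)
    obtain ⟨ε', hε'a, hε'b⟩ := exists_rat_btwn (show (0 : ℝ) < ell * ε / 4 by positivity)
    obtain ⟨p3, hp3⟩ := hU ell ε' (max a1 a2) hell (by exact_mod_cast hε'a)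
    set P : ℕ := max (max p1 p2) (max p3 1) with hP
    refine ⟨2 ^ P, fun R hR0 c => ?_⟩
    have hR1 : (1 : ℝ) ≤ R := le_trans (one_le_pow₀ one_le_two) hR0
    obtain ⟨p, hpa, hpb⟩ := exists_nat_pow_near hR1 (one_lt_two)
    have hPp : P ≤ p := by
      by_contra hcon
      push Not at hcon
      have : (2 : ℝ) ^ (p + 1) ≤ 2 ^ P := pow_le_pow_right₀ one_le_two hcon
      linarith
    have hq1 : p1 ≤ p := ((le_max_left _ _).trans (le_max_left _ _)).trans hPp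
    have hq2 : p2 ≤ p := ((le_max_right _ _).trans (le_max_left _ _)).trans hPp
    have hq3 : p3 ≤ p := ((le_max_left _ _).trans (le_max_right _ _)).trans hPp
    have hq4 : 1 ≤ p := ((le_max_right _ _).trans (le_max_right _ _)).trans hPp
    have hmem : R ∈ Icc ((2 : ℝ) ^ p) (2 ^ (p + 1)) := ⟨hpa, hpb.le⟩
    have hL0 : 0 < Lx p := by
      unfold Lx
      have : (1 : ℝ) ≤ p := by exact_mod_cast hq4
      positivity
    set L := Lx p with hLdef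
    have hLq : 0 < L ^ (1 / 4 : ℝ) := rpow_pos_of_pos hL0 _
    have hL34 : L ^ (3 / 4 : ℝ) * L ^ (1 / 4 : ℝ) = L := by
      rw [← rpow_add hL0]
      norm_num
    have hL34' : 0 < L ^ (3 / 4 : ℝ) := rpow_pos_of_pos hL0 _
    have h1 := hp1 p hq1 R hmem c
    have h2 := (abs_le.mp (hp2 p hq2)).2
    have h3 := hp3 p hq3 R hmem c
    rw [← hLdef] at h1 h2 h3
    set MM := M (max a1 a2) p R c with hMM
    set XX := X (max a1 a2) p (ell * L ^ (3 / 4 : ℝ)) with hXX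
    have h4 : XX ≤ (C * (ell : ℝ) ^ (4 / 3 : ℝ) + ell * ε / 4) * L := by
      have : XX / L ≤ C * (ell : ℝ) ^ (4 / 3 : ℝ) + ell * ε / 4 := by linarith
      rwa [div_le_iff₀ hL0] at this
    have h5 : σ * MM * (ell * L ^ (3 / 4 : ℝ)) ≤ (C * (ell : ℝ) ^ (4 / 3 : ℝ) + 1 + ell * ε / 2) * L := by
      have e1 : σ * MM * (ell * L ^ (3 / 4 : ℝ)) = σ * (ell * L ^ (3 / 4 : ℝ)) * MM := by ring
      rw [e1]
      linarith [h3, h4, mul_le_mul_of_nonneg_right hε'b.le hL0.le]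
    have h6 : σ * MM ≤ ((C * (ell : ℝ) ^ (4 / 3 : ℝ) + 1) / ell + ε / 2) * L ^ (1 / 4 : ℝ) := by
      rw [← mul_le_mul_iff_left₀ (show 0 < (ell : ℝ) * L ^ (3 / 4 : ℝ) by positivity)]
      calc σ * MM * (ell * L ^ (3 / 4 : ℝ)) ≤ (C * (ell : ℝ) ^ (4 / 3 : ℝ) + 1 + ell * ε / 2) * L := h5
        _ = ((C * (ell : ℝ) ^ (4 / 3 : ℝ) + 1) / ell + ε / 2) * L ^ (1 / 4 : ℝ) * (ell * L ^ (3 / 4 : ℝ)) := by
            rw [show ((C * (ell : ℝ) ^ (4 / 3 : ℝ) + 1) / ell + ε / 2) * L ^ (1 / 4 : ℝ) * (ell * L ^ (3 / 4 : ℝ))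
              = ((C * (ell : ℝ) ^ (4 / 3 : ℝ) + 1) / ell + ε / 2) * ell * (L ^ (3 / 4 : ℝ) * L ^ (1 / 4 : ℝ)) by ring, hL34]
            field_simp
            try ring
    have h7 : σ * MM ≤ (T + 3 * ε / 4) * L ^ (1 / 4 : ℝ) := by
      refine h6.trans (mul_le_mul_of_nonneg_right ?_ hLq.le)
      linarith
    have hs : 0 < sqrt R := sqrt_pos.mpr (by linarith)
    have h8 := (habs (E R c) (sqrt R * MM) le_rfl).1
    have h9 : σ * E R c ≤ (T + ε) * (sqrt R * L ^ (1 / 4 : ℝ)) := by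
      have e1 : σ * (sqrt R * MM) = sqrt R * (σ * MM) := by ring
      have e2 : sqrt R * (σ * MM) ≤ sqrt R * ((T + 3 * ε / 4) * L ^ (1 / 4 : ℝ)) := mul_le_mul_of_nonneg_left h7 hs.le
      calc σ * E R c ≤ σ * (sqrt R * MM) + |E R c - sqrt R * MM| := h8
        _ ≤ sqrt R * ((T + 3 * ε / 4) * L ^ (1 / 4 : ℝ)) + ε / 4 * (sqrt R * L ^ (1 / 4 : ℝ)) := by rw [e1]; linarith
        _ = (T + ε) * (sqrt R * L ^ (1 / 4 : ℝ)) := by ring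
    refine h9.trans (mul_le_mul_of_nonneg_left ?_ (by positivity))
    unfold gR
    rw [← sqrt_eq_rpow]
    apply mul_le_mul_of_nonneg_left _ hs.le
    apply rpow_le_rpow hL0.le _ (by norm_num)
    rw [hLdef]
    unfold Lx
    rw [← log_pow]
    exact log_le_log (by positivity) hpa
  · intro ε hε c R₀
    obtain ⟨ell, h, m, e, e1, e2, e3, δ, hh, hhl, hm, he, he1, he2, he2', he3, hcond, hδ, hc1, hc2, hc3, hc4⟩ :=
      params hC (show 0 < min ε T / 4 from div_pos (lt_min hε hT0) (by norm_num))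
    rw [← hTdef] at hc4
    set ε₁ : ℝ := min ε T with hε₁
    have hε₁0 : 0 < ε₁ := lt_min hε hT0
    have hell : 0 < ell := hh.trans hhl
    have hellR : (0 : ℝ) < ell := by exact_mod_cast hell
    have hhR : (0 : ℝ) < h := by exact_mod_cast hh
    have hhlR : (0 : ℝ) < ell - h := by
      have : (h : ℝ) < ell := by exact_mod_cast hhl
      linarith
    obtain ⟨a1, ha1⟩ := hT (ε₁ / 4) (by positivity)
    obtain ⟨a2, ha2⟩ := hR ell hellR δ hδ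
    obtain ⟨a3, ha3⟩ := hR (ell + h) (by positivity) δ hδ
    obtain ⟨a4, ha4⟩ := hR (ell - h) hhlR δ hδ
    set a := max (max a1 a2) (max a3 a4) with ha
    obtain ⟨p1, hp1⟩ := ha1 a ((le_max_left _ _).trans (le_max_left _ _))
    obtain ⟨p2, hp2⟩ := ha2 a ((le_max_right _ _).trans (le_max_left _ _))
    obtain ⟨p3, hp3⟩ := ha3 a ((le_max_left _ _).trans (le_max_right _ _))
    obtain ⟨p4, hp4⟩ := ha4 a ((le_max_right _ _).trans (le_max_right _ _))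
    obtain ⟨p5, hp5⟩ := hL ell h m e e1 e2 e3 a hh hhl hm he he1 he2 he2' he3 hcond
    obtain ⟨p6, hp6⟩ := exists_nat_ge (4 * T / ε₁)
    obtain ⟨p7, hp7⟩ := pow_unbounded_of_one_lt R₀ (one_lt_two (α := ℝ))
    set p := max (max (max p1 p2) (max p3 p4)) (max (max p5 p6) (max p7 1)) with hpdef
    have hq1 : p1 ≤ p := (le_max_left _ _).trans ((le_max_left _ _).trans (le_max_left _ _))
    have hq2 : p2 ≤ p := (le_max_right _ _).trans ((le_max_left _ _).trans (le_max_left _ _))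
    have hq3 : p3 ≤ p := (le_max_left _ _).trans ((le_max_right _ _).trans (le_max_left _ _))
    have hq4 : p4 ≤ p := (le_max_right _ _).trans ((le_max_right _ _).trans (le_max_left _ _))
    have hq5 : p5 ≤ p := (le_max_left _ _).trans ((le_max_left _ _).trans (le_max_right _ _))
    have hq6 : p6 ≤ p := (le_max_right _ _).trans ((le_max_left _ _).trans (le_max_right _ _))
    have hq7 : p7 ≤ p := (le_max_left _ _).trans ((le_max_right _ _).trans (le_max_right _ _))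
    have hq8 : 1 ≤ p := (le_max_right _ _).trans ((le_max_right _ _).trans (le_max_right _ _))
    have hpR : (1 : ℝ) ≤ p := by exact_mod_cast hq8
    have hL0 : 0 < Lx p := by unfold Lx; positivity
    have h2 := abs_le.mp (hp2 p hq2)
    have h3 := abs_le.mp (hp3 p hq3)
    have h4 := abs_le.mp (hp4 p hq4)
    have hX : ∀ {y z : ℝ}, y / Lx p ≤ z → y ≤ z * Lx p := fun hyz => (div_le_iff₀ hL0).mp hyz
    have hX' : ∀ {y z : ℝ}, z ≤ y / Lx p → z * Lx p ≤ y := fun hyz => (le_div_iff₀ hL0).mp hyz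
    have h2a := hX' (show C * (ell : ℝ) ^ (4 / 3 : ℝ) - δ ≤ X a p (ell * Lx p ^ (3 / 4 : ℝ)) / Lx p by linarith [h2.1])
    have h3a := hX (show X a p ((ell + h) * Lx p ^ (3 / 4 : ℝ)) / Lx p ≤ C * ((ell : ℝ) + h) ^ (4 / 3 : ℝ) + δ by linarith [h3.2])
    have h4a := hX (show X a p ((ell - h) * Lx p ^ (3 / 4 : ℝ)) / Lx p ≤ C * ((ell : ℝ) - h) ^ (4 / 3 : ℝ) + δ by linarith [h4.2])
    obtain ⟨R, hmem, hb⟩ := hp5 p hq5
      (by
        have := mul_le_mul_of_nonneg_right hc1 hL0.le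
        linarith [this, h2a, h3a])
      (by
        have := mul_le_mul_of_nonneg_right hc2 hL0.le
        linarith [this, h2a, h4a])
      (by
        have := mul_le_mul_of_nonneg_right hc3 hL0.le
        linarith [this, h2a]) c
    have hRpos : (1 : ℝ) ≤ R := le_trans (one_le_pow₀ one_le_two) hmem.1
    refine ⟨R, ?_, ?_⟩
    · have : (2 : ℝ) ^ p7 ≤ 2 ^ p := pow_le_pow_right₀ one_le_two hq7
      linarith [hmem.1]
    have hs : 0 < sqrt R := sqrt_pos.mpr (by linarith)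
    have h1 := hp1 p hq1 R hmem c
    set L := Lx p with hLdef
    have hLq : 0 < L ^ (1 / 4 : ℝ) := rpow_pos_of_pos hL0 _
    have h8 := (habs (E R c) (sqrt R * M a p R c) le_rfl).2
    have h9 : (T - ε₁ / 2) * (sqrt R * L ^ (1 / 4 : ℝ)) ≤ σ * E R c := by
      have e1 : σ * (sqrt R * M a p R c) = sqrt R * (σ * M a p R c) := by ring
      have e2 : sqrt R * ((m - e) * L ^ (1 / 4 : ℝ)) ≤ sqrt R * (σ * M a p R c) := mul_le_mul_of_nonneg_left hb hs.le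
      have e3 : (T - ε₁ / 4) * (sqrt R * L ^ (1 / 4 : ℝ)) ≤ (m - e) * (sqrt R * L ^ (1 / 4 : ℝ)) :=
        mul_le_mul_of_nonneg_right hc4 (by positivity)
      linarith [e1, e2, e3, h1, h8]
    refine le_trans ?_ h9
    -- comparison of `gR` with `sqrt R * L^(1/4)`
    have hgR : gR R ≤ (1 + 1 / p) * (sqrt R * L ^ (1 / 4 : ℝ)) := by
      unfold gR
      rw [← sqrt_eq_rpow]
      have h10 : log R ≤ (1 + 1 / p) * L := by
        have : log R ≤ log (2 ^ (p + 1)) := log_le_log (by linarith) hmem.2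
        rw [log_pow] at this
        rw [hLdef]
        unfold Lx
        refine this.trans (le_of_eq ?_)
        push_cast
        field_simp
      have h11 : log R ^ (1 / 4 : ℝ) ≤ (1 + 1 / p) * L ^ (1 / 4 : ℝ) := by
        calc log R ^ (1 / 4 : ℝ) ≤ ((1 + 1 / p) * L) ^ (1 / 4 : ℝ) := rpow_le_rpow (log_nonneg hRpos) h10 (by norm_num)
          _ = (1 + 1 / p : ℝ) ^ (1 / 4 : ℝ) * L ^ (1 / 4 : ℝ) := mul_rpow (by positivity) hL0.le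
          _ ≤ (1 + 1 / p) * L ^ (1 / 4 : ℝ) := by
              apply mul_le_mul_of_nonneg_right _ hLq.le
              have h12 : (1 : ℝ) ≤ 1 + 1 / p := by
                have : (0 : ℝ) < 1 / p := by positivity
                linarith
              calc (1 + 1 / p : ℝ) ^ (1 / 4 : ℝ) ≤ (1 + 1 / p : ℝ) ^ (1 : ℝ) := rpow_le_rpow_of_exponent_le h12 (by norm_num)
                _ = _ := rpow_one _
      calc sqrt R * log R ^ (1 / 4 : ℝ) ≤ sqrt R * ((1 + 1 / p) * L ^ (1 / 4 : ℝ)) := mul_le_mul_of_nonneg_left h11 hs.le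
        _ = (1 + 1 / p) * (sqrt R * L ^ (1 / 4 : ℝ)) := by ring
    have hgR0 : 0 ≤ gR R := by
      unfold gR
      have := log_nonneg hRpos
      positivity
    have hεε : ε₁ ≤ ε := min_le_left _ _
    have hεT : ε₁ ≤ T := min_le_right _ _
    have h13 : (T - ε₁) * (1 + 1 / p) ≤ T - ε₁ / 2 := by
      have h14 : 4 * T / ε₁ ≤ p := hp6.trans (by exact_mod_cast hq6)
      have h15 : T * (1 / p) ≤ ε₁ / 4 := by
        rw [div_le_iff₀ hε₁0] at h14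
        rw [mul_one_div, div_le_iff₀ (by linarith)]
        linarith
      have h16 : (0 : ℝ) ≤ 1 / p := by positivity
      linarith [h15, h16, hε₁0, mul_nonneg hε₁0.le h16]
    calc (T - ε) * gR R ≤ (T - ε₁) * gR R := mul_le_mul_of_nonneg_right (by linarith) hgR0
      _ ≤ (T - ε₁) * ((1 + 1 / p) * (sqrt R * L ^ (1 / 4 : ℝ))) := mul_le_mul_of_nonneg_left hgR (by linarith)
      _ = (T - ε₁) * (1 + 1 / p) * (sqrt R * L ^ (1 / 4 : ℝ)) := by ring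
      _ ≤ (T - ε₁ / 2) * (sqrt R * L ^ (1 / 4 : ℝ)) := mul_le_mul_of_nonneg_right h13 (by positivity)

theorem comb {H : ℝ → ℝ} {σ : ℝ} {E : ℝ → ℝ × ℝ → ℝ} {C : ℝ} (hσ : σ = 1 ∨ σ = -1) (hC : 0 < C)
    (hT : ∀ ε : ℝ, 0 < ε → ∃ a₀ : ℕ, ∀ a : ℕ, a₀ ≤ a → ∃ p₀ : ℕ, ∀ p : ℕ, p₀ ≤ p → ∀ R ∈ Icc ((2 : ℝ) ^ p) (2 ^ (p + 1)), ∀ c : ℝ × ℝ,
      |E R c - sqrt R * Mx H (NN a p) R c| ≤ ε * (sqrt R * Lx p ^ (1 / 4 : ℝ)))
    (hR : ∀ ell : ℝ, 0 < ell → ∀ ε : ℝ, 0 < ε → ∃ a₀ : ℕ, ∀ a : ℕ, a₀ ≤ a → ∃ p₀ : ℕ, ∀ p : ℕ, p₀ ≤ p →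
      |CX σ H (NN a p) (ell * Lx p ^ (3 / 4 : ℝ)) / Lx p - C * ell ^ (4 / 3 : ℝ)| ≤ ε)
    (hU : ∀ (ell ε : ℚ) (a : ℕ), 0 < ell → 0 < ε → ∃ p₀ : ℕ, ∀ p : ℕ, p₀ ≤ p → ∀ R ∈ Icc ((2 : ℝ) ^ p) (2 ^ (p + 1)), ∀ c : ℝ × ℝ,
      σ * (ell * Lx p ^ (3 / 4 : ℝ)) * Mx H (NN a p) R c ≤ CX σ H (NN a p) (ell * Lx p ^ (3 / 4 : ℝ)) + (1 + ε) * Lx p)
    (hL : ∀ (ell h m e e1 e2 e3 : ℚ) (a : ℕ), 0 < h → h < ell → 0 < m → 0 < e → 0 < e1 → 0 < e2 → e2 ≤ 1 → 0 < e3 → (2 / e ^ 2 + ell ^ 2 / e2) * e1 ^ 2 ≤ e2 / 4 →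
      ∃ p₀ : ℕ, ∀ p : ℕ, p₀ ≤ p →
        CX σ H (NN a p) ((ell + h) * Lx p ^ (3 / 4 : ℝ)) - CX σ H (NN a p) (ell * Lx p ^ (3 / 4 : ℝ)) ≤ (h * (m + e1) - e3) * Lx p →
        CX σ H (NN a p) ((ell - h) * Lx p ^ (3 / 4 : ℝ)) - CX σ H (NN a p) (ell * Lx p ^ (3 / 4 : ℝ)) ≤ (-(h * (m - e1)) - e3) * Lx p →
        ell * m * Lx p - CX σ H (NN a p) (ell * Lx p ^ (3 / 4 : ℝ)) ≤ (1 - e2) * Lx p →
        ∀ c : ℝ × ℝ, ∃ R ∈ Icc ((2 : ℝ) ^ p) (2 ^ (p + 1)), (m - e) * Lx p ^ (1 / 4 : ℝ) ≤ σ * Mx H (NN a p) R c) :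
    (∀ ε : ℝ, 0 < ε → ∃ R₀ : ℝ, ∀ R : ℝ, R₀ ≤ R → ∀ c : ℝ × ℝ, σ * E R c ≤ (4 * (C / 3) ^ (3 / 4 : ℝ) + ε) * gR R) ∧
    (∀ ε : ℝ, 0 < ε → ∀ c : ℝ × ℝ, ∀ R₀ : ℝ, ∃ R : ℝ, R₀ ≤ R ∧ (4 * (C / 3) ^ (3 / 4 : ℝ) - ε) * gR R ≤ σ * E R c) :=
  comb_abs hσ hC (fun a p => Mx H (NN a p)) (fun a p lam => CX σ H (NN a p) lam) hT hR hU hL

end Pool.Agent.Helper93.EX
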