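import Pool.Agent.Helper93.EX.Defs4

/-!
# EX4, block D4: the deterministic combination for the law of the large values

With `x = (3 t / (4 C)) ^ 3` one has `t x - C x ^ (4/3) = (t / T) ^ 4`, `T = 4 (C / 3) ^ (3/4)`, and the derivative of `C x ^ (4/3)` is `t`.
-/

open MeasureTheory Real Set Filter Topology

set_option autoImplicit false

namespace Pool.Agent.Helper93.EX

open Pool.Agent.Helper93.AO (gR)

section real

variable {C t : ℝ}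

private noncomputable def xt (C t : ℝ) : ℝ := (3 * t / (4 * C)) ^ 3

private theorem xt_pos (hC : 0 < C) (ht : 0 < t) : 0 < xt C t := by unfold xt; positivity

private theorem xt_third (hC : 0 < C) (ht : 0 < t) : xt C t ^ (1 / 3 : ℝ) = 3 * t / (4 * C) := by
  unfold xt
  rw [← rpow_natCast, ← rpow_mul (by positivity)]
  norm_num

private theorem pow_split4 {x : ℝ} (hx : 0 < x) : x * x ^ (1 / 3 : ℝ) = x ^ (4 / 3 : ℝ) := by
  have h : x ^ (4 / 3 : ℝ) = x ^ ((1 : ℝ) + 1 / 3) := by norm_num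
  rw [h, rpow_add hx, rpow_one]

private theorem T_pow (hC : 0 < C) : (4 * (C / 3) ^ (3 / 4 : ℝ)) ^ 4 = 256 * (C / 3) ^ 3 := by
  rw [mul_pow, ← rpow_natCast ((C / 3) ^ (3 / 4 : ℝ)) 4, ← rpow_mul (by positivity), ← rpow_natCast (C / 3) 3]
  norm_num

/-- `C x ^ (4/3) / 3 = (t / T) ^ 4` -/
private theorem xt_val (hC : 0 < C) (ht : 0 < t) : C / 3 * xt C t ^ (4 / 3 : ℝ) = (t / (4 * (C / 3) ^ (3 / 4 : ℝ))) ^ 4 := by
  rw [div_pow, T_pow hC, ← pow_split4 (xt_pos hC ht), xt_third hC ht]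
  unfold xt
  field_simp
  ring

private theorem xt_deriv (hC : 0 < C) (ht : 0 < t) : 4 / 3 * C * xt C t ^ (1 / 3 : ℝ) = t := by
  rw [xt_third hC ht]
  field_simp

private theorem xt_leg (hC : 0 < C) (ht : 0 < t) : xt C t * t - C * xt C t ^ (4 / 3 : ℝ) = (t / (4 * (C / 3) ^ (3 / 4 : ℝ))) ^ 4 := by
  rw [← xt_val hC ht]
  have h1 := pow_split4 (xt_pos hC ht)
  have h2 := xt_deriv hC ht
  have h3 : xt C t * t = 4 / 3 * C * (xt C t * xt C t ^ (1 / 3 : ℝ)) := by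
    calc xt C t * t = xt C t * (4 / 3 * C * xt C t ^ (1 / 3 : ℝ)) := by rw [h2]
      _ = _ := by ring
  rw [h3, h1]
  ring

/-- choice of `ell` for the upper bound -/
private theorem choice_up4 (hC : 0 < C) (ht : 0 < t) {ε : ℝ} (hε : 0 < ε) :
    ∃ ell : ℚ, 0 < ell ∧ (t / (4 * (C / 3) ^ (3 / 4 : ℝ))) ^ 4 - ε ≤ ell * t - C * (ell : ℝ) ^ (4 / 3 : ℝ) := by
  have h0 := xt_pos hC ht
  have hc : ContinuousAt (fun x : ℝ => x * t - C * x ^ (4 / 3 : ℝ)) (xt C t) :=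
    (continuousAt_id.mul continuousAt_const).sub (continuousAt_const.mul (continuousAt_id.rpow_const (Or.inl h0.ne')))
  have h1 : ∀ᶠ x in 𝓝 (xt C t), (t / (4 * (C / 3) ^ (3 / 4 : ℝ))) ^ 4 - ε < x * t - C * x ^ (4 / 3 : ℝ) := by
    refine continuousAt_const.eventually_lt hc ?_
    rw [xt_leg hC ht]
    linarith
  have h2 : ∀ᶠ x in 𝓝 (xt C t), 0 < x := lt_mem_nhds h0
  obtain ⟨δ, hδ, h3⟩ := Metric.eventually_nhds_iff.mp (h1.and h2)
  obtain ⟨q, hq1, hq2⟩ := exists_rat_btwn (show xt C t < xt C t + δ by linarith)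
  have h4 := h3 (y := (q : ℝ)) (by rw [Real.dist_eq, abs_lt]; constructor <;> linarith)
  exact ⟨q, by exact_mod_cast h4.2, h4.1.le⟩

/-- choice of `ell` for the lower bound -/
private theorem choice_lo4 (hC : 0 < C) (ht : 0 < t) (htT : t < 4 * (C / 3) ^ (3 / 4 : ℝ)) {ε : ℝ} (hε : 0 < ε) :
    ∃ ell : ℚ, 0 < ell ∧ C / 3 * (ell : ℝ) ^ (4 / 3 : ℝ) < 1 ∧ C / 3 * (ell : ℝ) ^ (4 / 3 : ℝ) < (t / (4 * (C / 3) ^ (3 / 4 : ℝ))) ^ 4 + ε ∧
      t < 4 / 3 * C * (ell : ℝ) ^ (1 / 3 : ℝ) := by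
  have h0 := xt_pos hC ht
  have hT0 : 0 < 4 * (C / 3) ^ (3 / 4 : ℝ) := by positivity
  have hlt1 : (t / (4 * (C / 3) ^ (3 / 4 : ℝ))) ^ 4 < 1 := by
    apply pow_lt_one₀ (by positivity) _ (by norm_num)
    rwa [div_lt_one hT0]
  have hc : ContinuousAt (fun x : ℝ => C / 3 * x ^ (4 / 3 : ℝ)) (xt C t) :=
    continuousAt_const.mul (continuousAt_id.rpow_const (Or.inl h0.ne'))
  have h1 : ∀ᶠ x in 𝓝 (xt C t), C / 3 * x ^ (4 / 3 : ℝ) < min 1 ((t / (4 * (C / 3) ^ (3 / 4 : ℝ))) ^ 4 + ε) := by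
    refine hc.eventually_lt continuousAt_const ?_
    rw [xt_val hC ht]
    exact lt_min hlt1 (by linarith only [hε])
  obtain ⟨δ, hδ, h3⟩ := Metric.eventually_nhds_iff.mp h1
  obtain ⟨q, hq1, hq2⟩ := exists_rat_btwn (show xt C t < xt C t + δ by linarith)
  have h4 := h3 (y := (q : ℝ)) (by rw [Real.dist_eq, abs_lt]; constructor <;> linarith only [hq1, hq2])
  have hq0 : (0 : ℝ) < q := h0.trans hq1
  refine ⟨q, by exact_mod_cast hq0, h4.trans_le (min_le_left _ _), h4.trans_le (min_le_right _ _), ?_⟩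
  calc t = 4 / 3 * C * xt C t ^ (1 / 3 : ℝ) := (xt_deriv hC ht).symm
    _ < 4 / 3 * C * (q : ℝ) ^ (1 / 3 : ℝ) := by
        apply mul_lt_mul_of_pos_left _ (by positivity)
        exact rpow_lt_rpow h0.le hq1 (by norm_num)

/-- the derivative -/
private theorem deriv_bd4 (C : ℝ) {x η : ℝ} (hx : 0 < x) (hη : 0 < η) :
    ∃ δ : ℝ, 0 < δ ∧ ∀ h : ℝ, |h| < δ → |C * (x + h) ^ (4 / 3 : ℝ) - C * x ^ (4 / 3 : ℝ) - h * (4 / 3 * C * x ^ (1 / 3 : ℝ))| ≤ η * |h| := by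
  have h1 : HasDerivAt (fun y : ℝ => C * y ^ (4 / 3 : ℝ)) (C * (4 / 3 * x ^ ((4 / 3 : ℝ) - 1))) x :=
    (Real.hasDerivAt_rpow_const (Or.inl hx.ne')).const_mul C
  have h2 := (hasDerivAt_iff_isLittleO_nhds_zero.mp h1).bound hη
  obtain ⟨δ, hδ, h3⟩ := Metric.eventually_nhds_iff.mp h2
  refine ⟨δ, hδ, fun h hh => ?_⟩
  have h4 := h3 (y := h) (by rw [Real.dist_eq, sub_zero]; exact hh)
  simp only [Real.norm_eq_abs, smul_eq_mul] at h4
  have h5 : ((4 / 3 : ℝ) - 1) = 1 / 3 := by norm_num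
  rw [h5] at h4
  have h6 : h * (4 / 3 * C * x ^ (1 / 3 : ℝ)) = h * (C * (4 / 3 * x ^ (1 / 3 : ℝ))) := by ring
  rw [h6]
  exact h4

/-- all parameters for the lower bound -/
private theorem params4 (hC : 0 < C) (ht : 0 < t) (htT : t < 4 * (C / 3) ^ (3 / 4 : ℝ)) {ε : ℝ} (hε : 0 < ε) :
    ∃ (ell h m e e1 e2 e3 s : ℚ) (δ : ℝ), 0 < h ∧ h < ell ∧ 0 < m ∧ 0 < e ∧ 0 < e1 ∧ 0 < e2 ∧ e2 ≤ 1 ∧ 0 < e3 ∧ s ≤ 1 - e2 ∧
      (2 / e ^ 2 + ell ^ 2 / e2) * e1 ^ 2 ≤ e2 / 4 ∧ 0 < δ ∧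
      (C * ((ell : ℝ) + h) ^ (4 / 3 : ℝ) - C * (ell : ℝ) ^ (4 / 3 : ℝ) + 2 * δ ≤ h * (m + e1) - e3) ∧
      (C * ((ell : ℝ) - h) ^ (4 / 3 : ℝ) - C * (ell : ℝ) ^ (4 / 3 : ℝ) + 2 * δ ≤ -(h * (m - e1)) - e3) ∧
      ((ell : ℝ) * m - C * (ell : ℝ) ^ (4 / 3 : ℝ) + δ ≤ s) ∧
      (s + e2 : ℝ) ≤ (t / (4 * (C / 3) ^ (3 / 4 : ℝ))) ^ 4 + ε ∧ t + 2 * δ ≤ (m : ℝ) - e := by
  obtain ⟨ell, hell, hg1, hg2, hF⟩ := choice_lo4 hC ht htT (show 0 < ε / 4 by positivity)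
  have hellR : (0 : ℝ) < ell := by exact_mod_cast hell
  set τ : ℝ := (t / (4 * (C / 3) ^ (3 / 4 : ℝ))) ^ 4 with hτ
  set F' : ℝ := 4 / 3 * C * (ell : ℝ) ^ (1 / 3 : ℝ) with hF'
  have hF'0 : 0 < F' := by positivity
  set G : ℝ := C / 3 * (ell : ℝ) ^ (4 / 3 : ℝ) with hG
  have hid : (ell : ℝ) * F' - C * (ell : ℝ) ^ (4 / 3 : ℝ) = G := by
    have h1 := pow_split4 hellR
    have h2 : (ell : ℝ) * F' = 4 / 3 * C * ((ell : ℝ) * (ell : ℝ) ^ (1 / 3 : ℝ)) := by rw [hF']; ring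
    rw [h2, h1, hG]
    ring
  set γ : ℝ := min ((1 - G) / 2) (ε / 8) with hγ
  have hγ0 : 0 < γ := lt_min (by linarith only [hg1]) (by positivity)
  have hγ1 : γ ≤ (1 - G) / 2 := min_le_left _ _
  have hγ2 : γ ≤ ε / 8 := min_le_right _ _
  -- s
  obtain ⟨s, hsa, hsb⟩ := exists_rat_btwn (show G + γ / 2 < G + γ by linarith only [hγ0])
  -- e2
  obtain ⟨e2, he2a, he2b⟩ := exists_rat_btwn (show (0 : ℝ) < min 1 γ from lt_min one_pos hγ0)
  have he2 : 0 < e2 := by exact_mod_cast he2a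
  have he2R : (0 : ℝ) < e2 := he2a
  have he2_1 : e2 ≤ 1 := by
    have : (e2 : ℝ) ≤ 1 := he2b.le.trans (min_le_left _ _)
    exact_mod_cast this
  have he2_g : (e2 : ℝ) ≤ γ := he2b.le.trans (min_le_right _ _)
  have hs1 : s ≤ 1 - e2 := by
    have : (s : ℝ) ≤ 1 - e2 := by linarith only [hγ1, hsb, he2_g]
    exact_mod_cast this
  -- e
  set gap : ℝ := F' - t with hgap
  have hgap0 : 0 < gap := by linarith only [hF]
  obtain ⟨e, hea, heb⟩ := exists_rat_btwn (show (0 : ℝ) < gap / 4 by positivity)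
  have he : 0 < e := by exact_mod_cast hea
  -- e1
  set Q : ℚ := 2 / e ^ 2 + ell ^ 2 / e2 with hQ
  have hQ0 : 0 < Q := by positivity
  set e1 : ℚ := min 1 (e2 / (4 * Q)) with he1
  have he1_0 : 0 < e1 := lt_min one_pos (div_pos he2 (mul_pos (by norm_num) hQ0))
  have he1_1 : e1 ≤ 1 := min_le_left _ _
  have he1_2 : e1 ≤ e2 / (4 * Q) := min_le_right _ _
  have hcond : Q * e1 ^ 2 ≤ e2 / 4 := by
    calc Q * e1 ^ 2 ≤ Q * (e1 * 1) := by
          rw [pow_two]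
          exact mul_le_mul_of_nonneg_left (mul_le_mul_of_nonneg_left he1_1 he1_0.le) hQ0.le
      _ ≤ Q * (e2 / (4 * Q) * 1) := by
          apply mul_le_mul_of_nonneg_left _ hQ0.le
          apply mul_le_mul_of_nonneg_right he1_2 zero_le_one
      _ = e2 / 4 := by field_simp
  have he1R : (0 : ℝ) < e1 := by exact_mod_cast he1_0
  -- h
  obtain ⟨δ, hδ, hd⟩ := deriv_bd4 C hellR (show (0 : ℝ) < e1 / 8 by positivity)
  obtain ⟨h, hha, hhb⟩ := exists_rat_btwn (show (0 : ℝ) < min (ell : ℝ) δ from lt_min hellR hδ)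
  have hh0 : 0 < h := by exact_mod_cast hha
  have hhR : (0 : ℝ) < h := hha
  have hhl : h < ell := by
    have : (h : ℝ) < ell := hhb.trans_le (min_le_left _ _)
    exact_mod_cast this
  have hhd : (h : ℝ) < δ := hhb.trans_le (min_le_right _ _)
  have hp := hd h (by rw [abs_of_pos hhR]; exact hhd)
  have hm := hd (-h) (by rw [abs_neg, abs_of_pos hhR]; exact hhd)
  rw [abs_neg, abs_of_pos hhR] at hm
  rw [abs_of_pos hhR] at hp
  rw [← sub_eq_add_neg] at hm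
  have hp' := (abs_le.mp hp).2
  have hm' := (abs_le.mp hm).2
  rw [← hF'] at hp' hm'
  -- m
  set η : ℝ := min (e1 / 8) (γ / (8 * ell)) with hη
  have hη0 : 0 < η := lt_min (div_pos he1R (by norm_num)) (div_pos hγ0 (mul_pos (by norm_num) hellR))
  have hη1 : η ≤ e1 / 8 := min_le_left _ _
  have hη2 : η ≤ γ / (8 * ell) := min_le_right _ _
  obtain ⟨m, hma, hmb⟩ := exists_rat_btwn (show F' < F' + η by linarith only [hη0])
  have hm0 : 0 < m := by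
    have : (0 : ℝ) < m := hF'0.trans hma
    exact_mod_cast this
  have hell2 : (ell : ℝ) * η ≤ γ / 8 := by
    calc (ell : ℝ) * η ≤ ell * (γ / (8 * ell)) := mul_le_mul_of_nonneg_left hη2 hellR.le
      _ = γ / 8 := by field_simp
  have hhη : (h : ℝ) * η ≤ h * (e1 / 8) := mul_le_mul_of_nonneg_left hη1 hhR.le
  have hhm1 : (h : ℝ) * F' ≤ h * m := mul_le_mul_of_nonneg_left hma.le hhR.le
  have hhm2 : (h : ℝ) * m ≤ h * (F' + η) := mul_le_mul_of_nonneg_left hmb.le hhR.le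
  have helm : (ell : ℝ) * m ≤ ell * (F' + η) := mul_le_mul_of_nonneg_left hmb.le hellR.le
  have hd1 := min_le_left ((h : ℝ) * e1 / 16) (min (γ / 8) (gap / 8))
  have hd2 := (min_le_right ((h : ℝ) * e1 / 16) (min (γ / 8) (gap / 8))).trans (min_le_left _ _)
  have hd3 := (min_le_right ((h : ℝ) * e1 / 16) (min (γ / 8) (gap / 8))).trans (min_le_right _ _)
  have hhe : (0 : ℝ) < h * e1 := mul_pos hhR he1R
  refine ⟨ell, h, m, e, e1, e2, h * e1 / 8, s, min (h * e1 / 16) (min (γ / 8) (gap / 8)), hh0, hhl, hm0, he, he1_0, he2, he2_1,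
    div_pos (mul_pos hh0 he1_0) (by norm_num), hs1, hcond,
    lt_min (div_pos hhe (by norm_num)) (lt_min (div_pos hγ0 (by norm_num)) (div_pos hgap0 (by norm_num))), ?_, ?_, ?_, ?_, ?_⟩
  · push_cast
    linarith only [hp', hhm1, hd1, hhe]
  · push_cast
    linarith only [hm', hhη, hhm2, hd1, hhe]
  · linarith only [hid, hsa, hsb, hell2, helm, hd2]
  · linarith only [hg2, hγ2, hsa, hsb, he2_g]
  · linarith only [hea, heb, hma, hd3]

end real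

private theorem comb4_abs {σ : ℝ} {E : ℝ → ℝ × ℝ → ℝ} {C : ℝ} (hσ : σ = 1 ∨ σ = -1) (hC : 0 < C)
    (M : ℕ → ℕ → ℝ → ℝ × ℝ → ℝ) (X : ℕ → ℕ → ℝ → ℝ)
    (hT : ∀ ε : ℝ, 0 < ε → ∃ a₀ : ℕ, ∀ a : ℕ, a₀ ≤ a → ∃ p₀ : ℕ, ∀ p : ℕ, p₀ ≤ p → ∀ R ∈ Icc ((2 : ℝ) ^ p) (2 ^ (p + 1)), ∀ c : ℝ × ℝ,
      |E R c - sqrt R * M a p R c| ≤ ε * (sqrt R * Lx p ^ (1 / 4 : ℝ)))
    (hR : ∀ ell : ℝ, 0 < ell → ∀ ε : ℝ, 0 < ε → ∃ a₀ : ℕ, ∀ a : ℕ, a₀ ≤ a → ∃ p₀ : ℕ, ∀ p : ℕ, p₀ ≤ p →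
      |X a p (ell * Lx p ^ (3 / 4 : ℝ)) / Lx p - C * ell ^ (4 / 3 : ℝ)| ≤ ε)
    (hU4 : ∀ (ell s ε : ℚ) (a : ℕ), 0 < ell → 0 < s → 0 < ε → ∃ p₀ : ℕ, ∀ p : ℕ, p₀ ≤ p → ∀ c : ℝ × ℝ,
      volume.real {R : ℝ | R ∈ Icc ((2 : ℝ) ^ p) (2 ^ (p + 1)) ∧ X a p (ell * Lx p ^ (3 / 4 : ℝ)) + s * Lx p ≤ σ * (ell * Lx p ^ (3 / 4 : ℝ)) * M a p R c} ≤
        2 ^ ((1 - s + ε) * p : ℝ))
    (hL4 : ∀ (ell h m e e1 e2 e3 s : ℚ) (a j : ℕ), 0 < h → h < ell → 0 < m → 0 < e → 0 < e1 → 0 < e2 → e2 ≤ 1 → 0 < e3 → s ≤ 1 - e2 → (2 / e ^ 2 + ell ^ 2 / e2) * e1 ^ 2 ≤ e2 / 4 → j < 2 →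
      ∃ p₀ : ℕ, ∀ p : ℕ, p₀ ≤ p →
        X a p ((ell + h) * Lx p ^ (3 / 4 : ℝ)) - X a p (ell * Lx p ^ (3 / 4 : ℝ)) ≤ (h * (m + e1) - e3) * Lx p →
        X a p ((ell - h) * Lx p ^ (3 / 4 : ℝ)) - X a p (ell * Lx p ^ (3 / 4 : ℝ)) ≤ (-(h * (m - e1)) - e3) * Lx p →
        ell * m * Lx p - X a p (ell * Lx p ^ (3 / 4 : ℝ)) ≤ s * Lx p →
        ∀ c : ℝ × ℝ, 2 ^ ((1 - s - e2) * p : ℝ) ≤
          volume.real {R : ℝ | R ∈ Icc ((2 : ℝ) ^ p * (1 + j / 2)) (2 ^ p * (1 + (j + 1) / 2)) ∧ (m - e) * Lx p ^ (1 / 4 : ℝ) ≤ σ * M a p R c}) :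
    (∀ t : ℝ, 0 < t → ∀ ε : ℝ, 0 < ε → ∃ p₀ : ℕ, ∀ p : ℕ, p₀ ≤ p → ∀ c : ℝ × ℝ,
      LVc (fun R => σ * E R c) t (2 ^ p) (2 ^ (p + 1)) ≤ 2 ^ ((1 - (t / (4 * (C / 3) ^ (3 / 4 : ℝ))) ^ 4 + ε) * p : ℝ)) ∧
    (∀ t : ℝ, 0 < t → t < 4 * (C / 3) ^ (3 / 4 : ℝ) → ∀ ε : ℝ, 0 < ε → ∃ p₀ : ℕ, ∀ p : ℕ, p₀ ≤ p → ∀ j : ℕ, j < 2 → ∀ c : ℝ × ℝ,
      2 ^ ((1 - (t / (4 * (C / 3) ^ (3 / 4 : ℝ))) ^ 4 - ε) * p : ℝ) ≤ LV (fun R => σ * E R c) t (2 ^ p * (1 + j / 2)) (2 ^ p * (1 + (j + 1) / 2))) := by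
  have hlog2 : 0 < log 2 := log_pos one_lt_two
  have habs : ∀ x y : ℝ, σ * x ≤ σ * y + |x - y| ∧ σ * y - |x - y| ≤ σ * x := by
    intro x y
    have h1 := abs_le.mp (le_refl |x - y|)
    rcases hσ with h | h <;> subst h <;> constructor <;> linarith [h1.1, h1.2]
  have hfin : ∀ A B : ℝ, volume (Icc A B) ≠ ⊤ := fun A B => by
    rw [Real.volume_Icc]
    exact ENNReal.ofReal_ne_top
  constructor
  · intro t ht ε hε
    set τ : ℝ := (t / (4 * (C / 3) ^ (3 / 4 : ℝ))) ^ 4 with hτ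
    by_cases hcase : τ ≤ ε
    · -- the trivial bound
      refine ⟨0, fun p _ c => ?_⟩
      have h1 : LVc (fun R => σ * E R c) t (2 ^ p) (2 ^ (p + 1)) ≤ volume.real (Icc ((2 : ℝ) ^ p) (2 ^ (p + 1))) :=
        measureReal_mono (fun R hR => hR.1) (hfin _ _)
      have h2 : volume.real (Icc ((2 : ℝ) ^ p) (2 ^ (p + 1))) = 2 ^ p := by
        rw [Real.volume_real_Icc_of_le (pow_le_pow_right₀ one_le_two (by omega)), pow_succ]
        ring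
      rw [h2] at h1
      refine h1.trans ?_
      rw [← rpow_natCast 2 p]
      apply rpow_le_rpow_of_exponent_le one_le_two
      have hp0 : (0 : ℝ) ≤ p := Nat.cast_nonneg p
      nlinarith only [hcase]
    · push Not at hcase
      obtain ⟨ell, hell, hv⟩ := choice_up4 hC ht (show 0 < ε / 4 by positivity)
      rw [← hτ] at hv
      have hellR : (0 : ℝ) < ell := by exact_mod_cast hell
      set V : ℝ := ell * t - C * (ell : ℝ) ^ (4 / 3 : ℝ) with hV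
      obtain ⟨s, hsa, hsb⟩ := exists_rat_btwn (show V - ε / 2 < V - ε / 4 by linarith only [hε])
      have hs0R : (0 : ℝ) < s := by linarith only [hcase, hv, hsa, hsb]
      have hs0 : 0 < s := by exact_mod_cast hs0R
      obtain ⟨ε', hε'a, hε'b⟩ := exists_rat_btwn (show (0 : ℝ) < ε / 4 by positivity)
      have hε'0 : 0 < ε' := by exact_mod_cast hε'a
      obtain ⟨a1, ha1⟩ := hT (ε / (8 * ell)) (by positivity)
      obtain ⟨a2, ha2⟩ := hR ell hellR (ε / 8) (by positivity)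
      obtain ⟨p1, hp1⟩ := ha1 (max a1 a2) (le_max_left _ _)
      obtain ⟨p2, hp2⟩ := ha2 (max a1 a2) (le_max_right _ _)
      obtain ⟨p3, hp3⟩ := hU4 ell s ε' (max a1 a2) hell hs0 hε'0
      refine ⟨max (max p1 p2) (max p3 1), fun p hPp c => ?_⟩
      have hq1 : p1 ≤ p := ((le_max_left _ _).trans (le_max_left _ _)).trans hPp
      have hq2 : p2 ≤ p := ((le_max_right _ _).trans (le_max_left _ _)).trans hPp
      have hq3 : p3 ≤ p := ((le_max_left _ _).trans (le_max_right _ _)).trans hPp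
      have hq4 : 1 ≤ p := ((le_max_right _ _).trans (le_max_right _ _)).trans hPp
      have hL0 : 0 < Lx p := by
        unfold Lx
        have : (1 : ℝ) ≤ p := by exact_mod_cast hq4
        positivity
      have hp3' := hp3 p hq3 c
      have hp2' := (abs_le.mp (hp2 p hq2)).2
      have hp1' := hp1 p hq1
      refine (measureReal_mono (s₂ := {R : ℝ | R ∈ Icc ((2 : ℝ) ^ p) (2 ^ (p + 1)) ∧ X (max a1 a2) p (ell * Lx p ^ (3 / 4 : ℝ)) + s * Lx p ≤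
        σ * (ell * Lx p ^ (3 / 4 : ℝ)) * M (max a1 a2) p R c}) ?_
        (measure_ne_top_of_subset (fun R hR => hR.1) (hfin _ _))).trans (hp3'.trans ?_)
      · rintro R ⟨hmem, hRt⟩
        refine ⟨hmem, ?_⟩
        have hR1 : (1 : ℝ) ≤ R := le_trans (one_le_pow₀ one_le_two) hmem.1
        have h1 := hp1' R hmem c
        set L := Lx p with hLdef
        have hLq : 0 < L ^ (1 / 4 : ℝ) := rpow_pos_of_pos hL0 _
        have hL34 : L ^ (3 / 4 : ℝ) * L ^ (1 / 4 : ℝ) = L := by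
          rw [← rpow_add hL0]
          norm_num
        have hL34' : 0 < L ^ (3 / 4 : ℝ) := rpow_pos_of_pos hL0 _
        have hs : 0 < sqrt R := sqrt_pos.mpr (by linarith only [hR1])
        set MM := M (max a1 a2) p R c with hMM
        set XX := X (max a1 a2) p (ell * L ^ (3 / 4 : ℝ)) with hXX
        have h4 : XX ≤ (C * (ell : ℝ) ^ (4 / 3 : ℝ) + ε / 8) * L := by
          have : XX / L ≤ C * (ell : ℝ) ^ (4 / 3 : ℝ) + ε / 8 := by linarith only [hp2']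
          rwa [div_le_iff₀ hL0] at this
        have hg : t * (sqrt R * L ^ (1 / 4 : ℝ)) ≤ σ * E R c := by
          refine le_trans (mul_le_mul_of_nonneg_left ?_ ht.le) hRt
          unfold gR
          rw [← sqrt_eq_rpow]
          apply mul_le_mul_of_nonneg_left _ hs.le
          apply rpow_le_rpow hL0.le _ (by norm_num)
          rw [hLdef]
          unfold Lx
          rw [← log_pow]
          exact log_le_log (by positivity) hmem.1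
        have h5 : (t - ε / (8 * ell)) * L ^ (1 / 4 : ℝ) ≤ σ * MM := by
          have h6 := (habs (E R c) (sqrt R * MM)).1
          have e1 : σ * (sqrt R * MM) = sqrt R * (σ * MM) := by ring
          have h7 : sqrt R * ((t - ε / (8 * ell)) * L ^ (1 / 4 : ℝ)) ≤ sqrt R * (σ * MM) := by
            have e2 : sqrt R * ((t - ε / (8 * ell)) * L ^ (1 / 4 : ℝ)) =
              t * (sqrt R * L ^ (1 / 4 : ℝ)) - ε / (8 * ell) * (sqrt R * L ^ (1 / 4 : ℝ)) := by ring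
            rw [e2]
            linarith only [h1, hg, h6]
          exact le_of_mul_le_mul_left h7 hs
        have h8 : (ell * t - ε / 8) * L ≤ σ * (ell * L ^ (3 / 4 : ℝ)) * MM := by
          have h9 := mul_le_mul_of_nonneg_left h5 (show 0 ≤ (ell : ℝ) * L ^ (3 / 4 : ℝ) by positivity)
          have e3 : (ell : ℝ) * L ^ (3 / 4 : ℝ) * ((t - ε / (8 * ell)) * L ^ (1 / 4 : ℝ)) = (ell * t - ε / 8) * L := by
            calc (ell : ℝ) * L ^ (3 / 4 : ℝ) * ((t - ε / (8 * ell)) * L ^ (1 / 4 : ℝ))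
                = (ell * t - ell * (ε / (8 * ell))) * (L ^ (3 / 4 : ℝ) * L ^ (1 / 4 : ℝ)) := by ring
              _ = (ell * t - ε / 8) * L := by
                  rw [hL34]
                  congr 2
                  field_simp
          have e4 : (ell : ℝ) * L ^ (3 / 4 : ℝ) * (σ * MM) = σ * (ell * L ^ (3 / 4 : ℝ)) * MM := by ring
          rw [e3, e4] at h9
          exact h9
        have h10 : (s : ℝ) * L ≤ (V - ε / 4) * L := mul_le_mul_of_nonneg_right hsb.le hL0.le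
        have h11 : (C * (ell : ℝ) ^ (4 / 3 : ℝ) + ε / 8) * L + (V - ε / 4) * L = (ell * t - ε / 8) * L := by
          rw [hV]
          ring
        linarith only [h4, h8, h10]
      · apply rpow_le_rpow_of_exponent_le one_le_two
        apply mul_le_mul_of_nonneg_right _ (Nat.cast_nonneg p)
        linarith only [hv, hsa, hε'b]
  · intro t ht htT ε hε
    obtain ⟨ell, h, m, e, e1, e2, e3, s, δ, hh, hhl, hm, he, he1, he2, he2', he3, hs1, hcond, hδ, hc1, hc2, hc3, hc4, hc5⟩ :=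
      params4 hC ht htT hε
    set τ : ℝ := (t / (4 * (C / 3) ^ (3 / 4 : ℝ))) ^ 4 with hτ
    have hell : 0 < ell := hh.trans hhl
    have hellR : (0 : ℝ) < ell := by exact_mod_cast hell
    have hhR : (0 : ℝ) < h := by exact_mod_cast hh
    have hhlR : (0 : ℝ) < ell - h := by
      have : (h : ℝ) < ell := by exact_mod_cast hhl
      linarith only [this]
    obtain ⟨a1, ha1⟩ := hT (δ / 2) (by positivity)
    obtain ⟨a2, ha2⟩ := hR ell hellR δ hδ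
    obtain ⟨a3, ha3⟩ := hR (ell + h) (by positivity) δ hδ
    obtain ⟨a4, ha4⟩ := hR (ell - h) hhlR δ hδ
    set a := max (max a1 a2) (max a3 a4) with ha
    obtain ⟨p1, hp1⟩ := ha1 a ((le_max_left _ _).trans (le_max_left _ _))
    obtain ⟨p2, hp2⟩ := ha2 a ((le_max_right _ _).trans (le_max_left _ _))
    obtain ⟨p3, hp3⟩ := ha3 a ((le_max_left _ _).trans (le_max_right _ _))
    obtain ⟨p4, hp4⟩ := ha4 a ((le_max_right _ _).trans (le_max_right _ _))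
    obtain ⟨p5, hp5⟩ := hL4 ell h m e e1 e2 e3 s a 0 hh hhl hm he he1 he2 he2' he3 hs1 hcond (by norm_num)
    obtain ⟨p5', hp5'⟩ := hL4 ell h m e e1 e2 e3 s a 1 hh hhl hm he he1 he2 he2' he3 hs1 hcond (by norm_num)
    obtain ⟨p6, hp6⟩ := exists_nat_ge (2 * t / δ)
    refine ⟨max (max (max p1 p2) (max p3 p4)) (max (max p5 p6) (max p5' 1)), fun p hPp j hj c => ?_⟩
    have hq1 : p1 ≤ p := ((le_max_left _ _).trans ((le_max_left _ _).trans (le_max_left _ _))).trans hPp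
    have hq2 : p2 ≤ p := ((le_max_right _ _).trans ((le_max_left _ _).trans (le_max_left _ _))).trans hPp
    have hq3 : p3 ≤ p := ((le_max_left _ _).trans ((le_max_right _ _).trans (le_max_left _ _))).trans hPp
    have hq4 : p4 ≤ p := ((le_max_right _ _).trans ((le_max_right _ _).trans (le_max_left _ _))).trans hPp
    have hq5 : p5 ≤ p := ((le_max_left _ _).trans ((le_max_left _ _).trans (le_max_right _ _))).trans hPp
    have hq6 : p6 ≤ p := ((le_max_right _ _).trans ((le_max_left _ _).trans (le_max_right _ _))).trans hPp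
    have hq7 : p5' ≤ p := ((le_max_left _ _).trans ((le_max_right _ _).trans (le_max_right _ _))).trans hPp
    have hq8 : 1 ≤ p := ((le_max_right _ _).trans ((le_max_right _ _).trans (le_max_right _ _))).trans hPp
    have hpR : (1 : ℝ) ≤ p := by exact_mod_cast hq8
    have hL0 : 0 < Lx p := by unfold Lx; positivity
    have h2 := abs_le.mp (hp2 p hq2)
    have h3 := abs_le.mp (hp3 p hq3)
    have h4 := abs_le.mp (hp4 p hq4)
    have hX : ∀ {y z : ℝ}, y / Lx p ≤ z → y ≤ z * Lx p := fun hyz => (div_le_iff₀ hL0).mp hyz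
    have hX' : ∀ {y z : ℝ}, z ≤ y / Lx p → z * Lx p ≤ y := fun hyz => (le_div_iff₀ hL0).mp hyz
    have h2a := hX' (show C * (ell : ℝ) ^ (4 / 3 : ℝ) - δ ≤ X a p (ell * Lx p ^ (3 / 4 : ℝ)) / Lx p by linarith only [h2.1])
    have h3a := hX (show X a p ((ell + h) * Lx p ^ (3 / 4 : ℝ)) / Lx p ≤ C * ((ell : ℝ) + h) ^ (4 / 3 : ℝ) + δ by linarith only [h3.2])
    have h4a := hX (show X a p ((ell - h) * Lx p ^ (3 / 4 : ℝ)) / Lx p ≤ C * ((ell : ℝ) - h) ^ (4 / 3 : ℝ) + δ by linarith only [h4.2])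
    have hk1 : X a p ((ell + h) * Lx p ^ (3 / 4 : ℝ)) - X a p (ell * Lx p ^ (3 / 4 : ℝ)) ≤ (h * (m + e1) - e3) * Lx p := by
      have := mul_le_mul_of_nonneg_right hc1 hL0.le
      linarith only [this, h2a, h3a]
    have hk2 : X a p ((ell - h) * Lx p ^ (3 / 4 : ℝ)) - X a p (ell * Lx p ^ (3 / 4 : ℝ)) ≤ (-(h * (m - e1)) - e3) * Lx p := by
      have := mul_le_mul_of_nonneg_right hc2 hL0.le
      linarith only [this, h2a, h4a]
    have hk3 : ell * m * Lx p - X a p (ell * Lx p ^ (3 / 4 : ℝ)) ≤ s * Lx p := by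
      have := mul_le_mul_of_nonneg_right hc3 hL0.le
      linarith only [this, h2a]
    have hb : 2 ^ ((1 - s - e2) * p : ℝ) ≤
          volume.real {R : ℝ | R ∈ Icc ((2 : ℝ) ^ p * (1 + j / 2)) (2 ^ p * (1 + (j + 1) / 2)) ∧ (m - e) * Lx p ^ (1 / 4 : ℝ) ≤ σ * M a p R c} := by
      rcases Nat.lt_succ_iff_lt_or_eq.mp hj with hj0 | hj1
      · have : j = 0 := by omega
        subst this
        exact hp5 p hq5 hk1 hk2 hk3 c
      · subst hj1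
        exact hp5' p hq7 hk1 hk2 hk3 c
    refine le_trans ?_ (hb.trans (measureReal_mono ?_ (measure_ne_top_of_subset (fun R hR => hR.1) (hfin _ _))))
    · apply rpow_le_rpow_of_exponent_le one_le_two
      apply mul_le_mul_of_nonneg_right _ (Nat.cast_nonneg p)
      linarith only [hc4]
    rintro R ⟨hmem, hRb⟩
    refine ⟨hmem, ?_⟩
    have h2p : (0 : ℝ) < 2 ^ p := by positivity
    have hj0 : (0 : ℝ) ≤ j := Nat.cast_nonneg j
    have hj1 : (j : ℝ) ≤ 1 := by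
      have : j ≤ 1 := by omega
      exact_mod_cast this
    have hmem' : R ∈ Icc ((2 : ℝ) ^ p) (2 ^ (p + 1)) := by
      constructor
      · refine le_trans ?_ hmem.1
        nlinarith only [h2p, hj0]
      · refine hmem.2.trans ?_
        rw [pow_succ]
        apply mul_le_mul_of_nonneg_left _ h2p.le
        linarith only [hj1]
    have hRpos : (1 : ℝ) ≤ R := le_trans (one_le_pow₀ one_le_two) hmem'.1
    have hs : 0 < sqrt R := sqrt_pos.mpr (by linarith only [hRpos])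
    have h1 := hp1 p hq1 R hmem' c
    set L := Lx p with hLdef
    have hLq : 0 < L ^ (1 / 4 : ℝ) := rpow_pos_of_pos hL0 _
    have h8 := (habs (E R c) (sqrt R * M a p R c)).2
    have hsL : 0 < sqrt R * L ^ (1 / 4 : ℝ) := by positivity
    have h9 : (t + 3 / 2 * δ) * (sqrt R * L ^ (1 / 4 : ℝ)) ≤ σ * E R c := by
      have e1 : σ * (sqrt R * M a p R c) = sqrt R * (σ * M a p R c) := by ring
      have e2 : sqrt R * ((m - e) * L ^ (1 / 4 : ℝ)) ≤ sqrt R * (σ * M a p R c) := mul_le_mul_of_nonneg_left hRb hs.le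
      have e3 : (t + 2 * δ) * (sqrt R * L ^ (1 / 4 : ℝ)) ≤ (m - e) * (sqrt R * L ^ (1 / 4 : ℝ)) :=
        mul_le_mul_of_nonneg_right hc5 hsL.le
      linarith only [e1, e2, e3, h1, h8]
    have hgR : gR R ≤ (1 + 1 / p) * (sqrt R * L ^ (1 / 4 : ℝ)) := by
      unfold gR
      rw [← sqrt_eq_rpow]
      have h10 : log R ≤ (1 + 1 / p) * L := by
        have : log R ≤ log (2 ^ (p + 1)) := log_le_log (by linarith only [hRpos]) hmem'.2
        rw [log_pow] at this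
        rw [hLdef]
        unfold Lx
        refine this.trans (le_of_eq ?_)
        push_cast
        field_simp
      have h11 : log R ^ (1 / 4 : ℝ) ≤ (1 + 1 / p) * L ^ (1 / 4 : ℝ) := by
        calc log R ^ (1 / 4 : ℝ) ≤ ((1 + 1 / p) * L) ^ (1 / 4 : ℝ) := rpow_le_rpow (log_nonneg hRpos) h10 (by norm_num)
          _ = (1 + 1 / p : ℝ) ^ (1 / 4 : ℝ) * L ^ (1 / 4 : ℝ) := mul_rpow (by positivity) hL0.le
          _ ≤ (1 + 1 / p) * L ^ (1 / 4 : ℝ) := by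
              apply mul_le_mul_of_nonneg_right _ hLq.le
              have h12 : (1 : ℝ) ≤ 1 + 1 / p := by
                have : (0 : ℝ) < 1 / p := by positivity
                linarith only [this]
              calc (1 + 1 / p : ℝ) ^ (1 / 4 : ℝ) ≤ (1 + 1 / p : ℝ) ^ (1 : ℝ) := rpow_le_rpow_of_exponent_le h12 (by norm_num)
                _ = _ := rpow_one _
      calc sqrt R * log R ^ (1 / 4 : ℝ) ≤ sqrt R * ((1 + 1 / p) * L ^ (1 / 4 : ℝ)) := mul_le_mul_of_nonneg_left h11 hs.le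
        _ = (1 + 1 / p) * (sqrt R * L ^ (1 / 4 : ℝ)) := by ring
    have h15 : t * (1 / p) ≤ δ / 2 := by
      have h14 : 2 * t / δ ≤ p := hp6.trans (by exact_mod_cast hq6)
      rw [div_le_iff₀ hδ] at h14
      rw [mul_one_div, div_le_iff₀ (by linarith only [hpR])]
      linarith only [h14]
    calc t * gR R ≤ t * ((1 + 1 / p) * (sqrt R * L ^ (1 / 4 : ℝ))) := mul_le_mul_of_nonneg_left hgR ht.le
      _ = (t + t * (1 / p)) * (sqrt R * L ^ (1 / 4 : ℝ)) := by ring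
      _ ≤ (t + δ / 2) * (sqrt R * L ^ (1 / 4 : ℝ)) := mul_le_mul_of_nonneg_right (by linarith only [h15]) hsL.le
      _ < (t + 3 / 2 * δ) * (sqrt R * L ^ (1 / 4 : ℝ)) := mul_lt_mul_of_pos_right (by linarith only [hδ]) hsL
      _ ≤ σ * E R c := h9

theorem comb4 {H : ℝ → ℝ} {σ : ℝ} {E : ℝ → ℝ × ℝ → ℝ} {C : ℝ} (hσ : σ = 1 ∨ σ = -1) (hC : 0 < C)
    (hT : ∀ ε : ℝ, 0 < ε → ∃ a₀ : ℕ, ∀ a : ℕ, a₀ ≤ a → ∃ p₀ : ℕ, ∀ p : ℕ, p₀ ≤ p → ∀ R ∈ Icc ((2 : ℝ) ^ p) (2 ^ (p + 1)), ∀ c : ℝ × ℝ,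
      |E R c - sqrt R * Mx H (NN a p) R c| ≤ ε * (sqrt R * Lx p ^ (1 / 4 : ℝ)))
    (hR : ∀ ell : ℝ, 0 < ell → ∀ ε : ℝ, 0 < ε → ∃ a₀ : ℕ, ∀ a : ℕ, a₀ ≤ a → ∃ p₀ : ℕ, ∀ p : ℕ, p₀ ≤ p →
      |CX σ H (NN a p) (ell * Lx p ^ (3 / 4 : ℝ)) / Lx p - C * ell ^ (4 / 3 : ℝ)| ≤ ε)
    (hU4 : ∀ (ell s ε : ℚ) (a : ℕ), 0 < ell → 0 < s → 0 < ε → ∃ p₀ : ℕ, ∀ p : ℕ, p₀ ≤ p → ∀ c : ℝ × ℝ,
      volume.real {R : ℝ | R ∈ Icc ((2 : ℝ) ^ p) (2 ^ (p + 1)) ∧ CX σ H (NN a p) (ell * Lx p ^ (3 / 4 : ℝ)) + s * Lx p ≤ σ * (ell * Lx p ^ (3 / 4 : ℝ)) * Mx H (NN a p) R c} ≤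
        2 ^ ((1 - s + ε) * p : ℝ))
    (hL4 : ∀ (ell h m e e1 e2 e3 s : ℚ) (a j : ℕ), 0 < h → h < ell → 0 < m → 0 < e → 0 < e1 → 0 < e2 → e2 ≤ 1 → 0 < e3 → s ≤ 1 - e2 → (2 / e ^ 2 + ell ^ 2 / e2) * e1 ^ 2 ≤ e2 / 4 → j < 2 →
      ∃ p₀ : ℕ, ∀ p : ℕ, p₀ ≤ p →
        CX σ H (NN a p) ((ell + h) * Lx p ^ (3 / 4 : ℝ)) - CX σ H (NN a p) (ell * Lx p ^ (3 / 4 : ℝ)) ≤ (h * (m + e1) - e3) * Lx p →
        CX σ H (NN a p) ((ell - h) * Lx p ^ (3 / 4 : ℝ)) - CX σ H (NN a p) (ell * Lx p ^ (3 / 4 : ℝ)) ≤ (-(h * (m - e1)) - e3) * Lx p →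
        ell * m * Lx p - CX σ H (NN a p) (ell * Lx p ^ (3 / 4 : ℝ)) ≤ s * Lx p →
        ∀ c : ℝ × ℝ, 2 ^ ((1 - s - e2) * p : ℝ) ≤
          volume.real {R : ℝ | R ∈ Icc ((2 : ℝ) ^ p * (1 + j / 2)) (2 ^ p * (1 + (j + 1) / 2)) ∧ (m - e) * Lx p ^ (1 / 4 : ℝ) ≤ σ * Mx H (NN a p) R c}) :
    (∀ t : ℝ, 0 < t → ∀ ε : ℝ, 0 < ε → ∃ p₀ : ℕ, ∀ p : ℕ, p₀ ≤ p → ∀ c : ℝ × ℝ,
      LVc (fun R => σ * E R c) t (2 ^ p) (2 ^ (p + 1)) ≤ 2 ^ ((1 - (t / (4 * (C / 3) ^ (3 / 4 : ℝ))) ^ 4 + ε) * p : ℝ)) ∧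
    (∀ t : ℝ, 0 < t → t < 4 * (C / 3) ^ (3 / 4 : ℝ) → ∀ ε : ℝ, 0 < ε → ∃ p₀ : ℕ, ∀ p : ℕ, p₀ ≤ p → ∀ j : ℕ, j < 2 → ∀ c : ℝ × ℝ,
      2 ^ ((1 - (t / (4 * (C / 3) ^ (3 / 4 : ℝ))) ^ 4 - ε) * p : ℝ) ≤ LV (fun R => σ * E R c) t (2 ^ p * (1 + j / 2)) (2 ^ p * (1 + (j + 1) / 2))) :=
  comb4_abs hσ hC (fun a p => Mx H (NN a p)) (fun a p lam => CX σ H (NN a p) lam) hT hR hU4 hL4

end Pool.Agent.Helper93.EX
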