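import Pool.Agent.Helper3.AE.Zr
import Pool.Agent.Helper55.AE.Final
import Pool.Agent.Helper94.Pr.LowF

/-!
Exact comparison for all small subgroups of `A_n` whose nontrivial elements move many points (the
number of points depends only on the order of the subgroup, not on `n`): the average of a function of
the cone over such a subgroup `H` is at least the average over every subgroup `E` of small index.
-/

set_option autoImplicit false

open NumberField

namespace Pool.Agent.Helper90.EX

open Equiv Equiv.Perm Function Pool.Agent.Helper13.Ded Pool.Agent.Helper3.AE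

/-- permutations of small order have no isolated points -/
lemma na_eq {n B : ℕ} (x : Perm (Fin n)) (hx : orderOf x < B) : na B x = x.support.card := by
  classical
  have h1 : ∀ i, ¬ IsA B x i := by
    rintro i ⟨-, h2, -⟩
    have h3 : minimalPeriod x i ∣ orderOf x := by
      apply IsPeriodicPt.minimalPeriod_dvd
      show x^[orderOf x] i = i
      rw [Equiv.Perm.iterate_eq_pow, pow_orderOf_eq_one, Perm.one_apply]
    have h4 := Nat.le_of_dvd (orderOf_pos x) h3
    omega
  unfold na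
  rw [← Fintype.card_coe x.support, ← Nat.card_eq_fintype_card]
  refine Nat.card_congr (Equiv.subtypeEquivRight fun i => ?_)
  rw [Perm.mem_support]
  exact ⟨fun h => h.1, fun h => ⟨h, h1 i⟩⟩

/-- weighted sums -/
theorem exact_perm_weight (h : ℕ) : ∃ C n0 : ℕ, ∀ n ≥ n0, ∀ Θ : Perm (Fin n) → ℝ, HPA Θ →
    ∀ H : Subgroup (Perm (Fin n)), Nat.card H ≤ h → (∀ x ∈ H, sign x = 1) →
      (∀ x ∈ H, x ≠ 1 → C ≤ x.support.card) → ∀ f : H → ℝ, (∀ x, 0 ≤ f x) → (∀ x, f x ≤ f 1) →
      (mn Θ + 1 / (2 * ((h : ℝ) + 1)) * dd Θ) * ∑ᶠ x : H, f x ≤ ∑ᶠ x : H, f x * Θ x := by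
  classical
  set ε : ℝ := 1 / (2 * ((h : ℝ) + 1)) with hε
  have hε0 : 0 < ε := by positivity
  obtain ⟨B0, hB0⟩ := Pool.Agent.Helper55.AE.pt ε hε0
  obtain ⟨C, n0, hC⟩ := hB0 (max B0 (h + 1)) (le_max_left _ _)
  refine ⟨C, n0, ?_⟩
  intro n hn Θ hΘ H hH hs hmov f hf0 hf1
  have hpt := hC n hn Θ hΘ
  have iH : Fintype H := Fintype.ofFinite H
  have hd := dd_nonneg hΘ
  have hval : ∀ x : H, f x * (mn Θ - ε * dd Θ) + (if x = 1 then f x * ((1 + ε) * dd Θ) else 0) ≤
      f x * Θ x := by
    intro x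
    by_cases hx : x = 1
    · subst hx
      rw [if_pos rfl, ← mul_add]
      refine mul_le_mul_of_nonneg_left ?_ (hf0 1)
      show (mn Θ - ε * (Θ 1 - mn Θ)) + (1 + ε) * (Θ 1 - mn Θ) ≤ Θ 1
      linarith
    · rw [if_neg hx, add_zero]
      refine mul_le_mul_of_nonneg_left ?_ (hf0 x)
      have hx1 : (x : Perm (Fin n)) ≠ 1 := fun h1 => hx (Subtype.ext h1)
      refine hpt.main x (hs x x.2) ?_
      rw [na_eq]
      · exact hmov x x.2 hx1
      · have h1 : orderOf (x : Perm (Fin n)) ≤ h := by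
          rw [Subgroup.orderOf_coe]
          exact (Nat.le_of_dvd Nat.card_pos (orderOf_dvd_natCard x)).trans hH
        have h2 : h + 1 ≤ max B0 (h + 1) := le_max_right _ _
        omega
  have hsum := Finset.sum_le_sum fun (x : H) (_ : x ∈ Finset.univ) => hval x
  rw [Finset.sum_add_distrib, ← Finset.sum_mul, Finset.sum_ite_eq' Finset.univ,
    if_pos (Finset.mem_univ _)] at hsum
  rw [finsum_eq_sum_of_fintype, finsum_eq_sum_of_fintype]
  refine le_trans ?_ hsum
  have h3 : ∑ x : H, f x ≤ h * f 1 := by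
    calc ∑ x : H, f x ≤ ∑ _x : H, f 1 := Finset.sum_le_sum fun x _ => hf1 x
      _ = Fintype.card H * f 1 := by rw [Finset.sum_const, Finset.card_univ, nsmul_eq_mul]
      _ ≤ h * f 1 := by
          refine mul_le_mul_of_nonneg_right ?_ (hf0 1)
          rw [← Nat.card_eq_fintype_card]
          exact_mod_cast hH
  have h5 : 2 * ε * ∑ x : H, f x ≤ f 1 := by
    have h6 : 2 * ε * ((h : ℝ) * f 1) ≤ f 1 := by
      rw [hε, show 2 * (1 / (2 * ((h : ℝ) + 1))) * ((h : ℝ) * f 1) =
        ((h : ℝ) / ((h : ℝ) + 1)) * f 1 by field_simp]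
      have h7 : (h : ℝ) / ((h : ℝ) + 1) ≤ 1 := by
        rw [div_le_one (by positivity)]
        linarith
      have := mul_le_mul_of_nonneg_right h7 (hf0 1)
      linarith
    exact (mul_le_mul_of_nonneg_left h3 (by positivity)).trans h6
  have h6 := mul_le_mul_of_nonneg_right h5 hd
  have h7 : 0 ≤ ε * (f 1 * dd Θ) := mul_nonneg hε0.le (mul_nonneg (hf0 1) hd)
  nlinarith

/-- Weighted sums over a small subgroup whose nontrivial elements move many points. -/
theorem exact_weight (h : ℕ) : ∃ (η : ℝ) (C n0 : ℕ), 0 < η ∧ ∀ n ≥ n0,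
    ∀ {G : Type} [Group G] [Finite G] (e : G ≃* alternatingGroup (Fin n)) (θ : G → ℝ), HP θ →
      ∀ H E : Subgroup G, Nat.card H ≤ h →
      (∀ x ∈ H, x ≠ 1 → C ≤ (e x : Perm (Fin n)).support.card) →
      (E.index : ℝ) ≤ (Nat.card G : ℝ) ^ η →
      ∀ f : H → ℝ, (∀ x, 0 ≤ f x) → (∀ x, f x ≤ f 1) →
      av (fun x : E => θ x) * ∑ᶠ x : H, f x ≤ ∑ᶠ x : H, f x * θ x := by
  classical
  obtain ⟨C, n1, h1⟩ := exact_perm_weight h
  obtain ⟨η, n2, hη, h2⟩ := zr_alt (1 / (2 * ((h : ℝ) + 1))) (by positivity)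
  obtain ⟨n4, hn4⟩ : ∃ n4 : ℕ, ∀ n ≥ n4, (2 : ℝ) ≤ (n.factorial : ℝ) ^ (η / 2) := by
    refine ⟨⌈(2 : ℝ) ^ (1 / (η / 2))⌉₊, fun n hn => ?_⟩
    have h1 : (2 : ℝ) ^ (1 / (η / 2)) ≤ (n.factorial : ℝ) :=
      (Nat.le_ceil _).trans (by exact_mod_cast hn.trans (Nat.self_le_factorial n))
    have h2 := Real.rpow_le_rpow (by positivity) h1 (by positivity : (0 : ℝ) ≤ η / 2)
    rwa [← Real.rpow_mul (by norm_num), one_div_mul_cancel (by positivity), Real.rpow_one] at h2
  refine ⟨η / 2, C, n1 + n2 + n4 + 2, by positivity, ?_⟩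
  intro n hn G _ _ e θ hθ H E hH hmov hE w hw0 hw1
  -- the function on the symmetric group
  set Θ : Perm (Fin n) → ℝ := fun g =>
    if h : g ∈ alternatingGroup (Fin n) then θ (e.symm ⟨g, h⟩) else 0 with hΘ
  have hval : ∀ g : alternatingGroup (Fin n), Θ g = θ (e.symm g) := by
    intro g
    rw [hΘ]
    simp only [g.2, dif_pos]
  have hHPA : HPA Θ := by
    have h1 : (fun g : alternatingGroup (Fin n) => Θ g) = fun g => θ (e.symm g) := funext hval
    unfold HPA
    rw [h1]
    exact hθ.comp e.symm.toMonoidHom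
  set H' : Subgroup (Perm (Fin n)) := (H.map e.toMonoidHom).map (alternatingGroup (Fin n)).subtype
    with hH'
  let f : H ≃ H' :=
    ((e.subgroupMap H).toEquiv).trans
      ((H.map e.toMonoidHom).equivMapOfInjective (alternatingGroup (Fin n)).subtype
        (Subgroup.subtype_injective _)).toEquiv
  have hf1 : f 1 = 1 := Subtype.ext (by
    show ((e 1 : alternatingGroup (Fin n)) : Perm (Fin n)) = 1
    rw [map_one]
    rfl)
  have k1 := h1 n (by omega) Θ hHPA H' (by rw [← Nat.card_congr f]; exact hH) (by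
    rintro x ⟨y, _, rfl⟩
    exact mem_alternatingGroup.1 y.2) (by
    rintro _ ⟨_, ⟨x, hx, rfl⟩, rfl⟩ hx1
    refine hmov x hx ?_
    rintro rfl
    apply hx1
    rw [map_one, map_one]) (fun x => w (f.symm x)) (fun x => hw0 _) (fun x => by
    have h2 : f.symm 1 = 1 := by rw [← hf1, f.symm_apply_apply]
    rw [h2]
    exact hw1 _)
  have e1 : mn Θ = av θ := by
    unfold mn
    rw [show (fun g : alternatingGroup (Fin n) => Θ g) = fun g => θ (e.symm g) from funext hval]
    exact av_comp_equiv e.symm.toEquiv θ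
  have e2 : Θ 1 = θ 1 := by
    have := hval 1
    rwa [OneMemClass.coe_one, map_one] at this
  have e3 : ∑ᶠ x : H', w (f.symm x) * Θ x = ∑ᶠ x : H, w x * θ x := by
    rw [← finsum_comp_equiv f]
    refine finsum_congr fun x => ?_
    have h2 : ((f x : H') : Perm (Fin n)) = (e x : alternatingGroup (Fin n)) := rfl
    rw [f.symm_apply_apply, h2, hval, e.symm_apply_apply]
  have e3' : ∑ᶠ x : H', w (f.symm x) = ∑ᶠ x : H, w x := by
    rw [← finsum_comp_equiv f]
    refine finsum_congr fun x => ?_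
    rw [f.symm_apply_apply]
  rw [e3, e3', e1] at k1
  have e4 : dd Θ = θ 1 - av θ := by
    unfold dd
    rw [e1, e2]
  rw [e4] at k1
  -- the subgroup of small index
  have : Nontrivial (Fin n) := Fin.nontrivial_iff_two_le.2 (by omega)
  have hf1 : (1 : ℝ) ≤ n.factorial := by
    exact_mod_cast Nat.one_le_iff_ne_zero.2 (Nat.factorial_ne_zero n)
  have hcard : 2 * Nat.card G = n.factorial := by
    rw [Nat.card_congr e.toEquiv]
    have := two_mul_nat_card_alternatingGroup (α := Fin n)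
    rwa [Nat.card_eq_fintype_card (α := Perm (Fin n)), Fintype.card_perm,
      Fintype.card_fin] at this
  have hcle : (Nat.card G : ℝ) ≤ n.factorial := by
    rw [← hcard]
    push_cast
    have : (0 : ℝ) ≤ Nat.card G := Nat.cast_nonneg _
    linarith
  have hidx : ((E.map e.toMonoidHom).map (alternatingGroup (Fin n)).subtype).index =
      E.index * 2 := by
    rw [Subgroup.index_map_subtype, alternatingGroup.index_eq_two]
    congr 1
    exact Subgroup.index_map_of_bijective e.bijective E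
  have e5 : av (fun x => θ (e.symm x)) = av θ := av_comp_equiv e.symm.toEquiv θ
  have k := h2 n (by omega) (fun x => θ (e.symm x)) (hθ.comp e.symm.toMonoidHom)
    (E.map e.toMonoidHom) (by
      rw [hidx]
      push_cast
      have h4 : (E.index : ℝ) ≤ (n.factorial : ℝ) ^ (η / 2) :=
        hE.trans (Real.rpow_le_rpow (by positivity) hcle (by positivity))
      have h5 := hn4 n (by omega)
      have h6 : (n.factorial : ℝ) ^ η =
          (n.factorial : ℝ) ^ (η / 2) * (n.factorial : ℝ) ^ (η / 2) := by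
        rw [← Real.rpow_add (by linarith)]
        congr 1
        ring
      rw [h6]
      exact mul_le_mul h4 h5 (by norm_num) (by positivity))
  rw [av_map e θ E, e5, map_one, abs_le] at k
  have hw : 0 ≤ ∑ᶠ x : H, w x := finsum_nonneg hw0
  refine le_trans (mul_le_mul_of_nonneg_right ?_ hw) k1
  linarith [k.2]

theorem exact_group (h : ℕ) : ∃ (η : ℝ) (C n0 : ℕ), 0 < η ∧ ∀ n ≥ n0,
    ∀ {G : Type} [Group G] [Finite G] (e : G ≃* alternatingGroup (Fin n)) (θ : G → ℝ), HP θ →
      ∀ H E : Subgroup G, Nat.card H ≤ h →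
      (∀ x ∈ H, x ≠ 1 → C ≤ (e x : Perm (Fin n)).support.card) →
      (E.index : ℝ) ≤ (Nat.card G : ℝ) ^ η →
      av (fun x : E => θ x) ≤ av (fun x : H => θ x) := by
  classical
  obtain ⟨η, C, n0, hη, hC⟩ := exact_weight h
  refine ⟨η, C, n0, hη, ?_⟩
  intro n hn G _ _ e θ hθ H E hH hmov hE
  have iH : Fintype H := Fintype.ofFinite H
  have h1 := hC n hn e θ hθ H E hH hmov hE (fun _ => 1) (fun _ => zero_le_one) (fun _ => le_rfl)
  have hcard : (0 : ℝ) < Nat.card H := by exact_mod_cast Nat.card_pos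
  have h2 : ∑ᶠ x : H, (1 : ℝ) = Nat.card H := by
    rw [finsum_eq_sum_of_fintype, Finset.sum_const, Finset.card_univ, nsmul_eq_mul, mul_one,
      Nat.card_eq_fintype_card]
  have h3 : av (fun x : H => θ x) = (∑ᶠ x : H, (1 : ℝ) * θ x) / Nat.card H := by
    unfold av
    congr 1
    exact finsum_congr fun x => (one_mul _).symm
  rw [h2] at h1
  rw [h3, le_div_iff₀ hcard]
  exact h1


/-- The exact statement for number fields. -/
theorem exact_low (h : ℕ) : ∃ (η : ℝ) (C n0 : ℕ), 0 < η ∧ ∀ n ≥ n0,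
    ∀ {k N : Type} [Field k] [NumberField k] [Field N] [NumberField N] [Algebra k N]
      [IsGalois k N] (e : (N ≃ₐ[k] N) ≃* alternatingGroup (Fin n))
      (K : IntermediateField k N) (_ : Nat.card K.fixingSubgroup ≤ h)
      (_ : ∀ x ∈ K.fixingSubgroup, x ≠ 1 → C ≤ (e x : Perm (Fin n)).support.card)
      (L : IntermediateField K N) (F : IntermediateField k N),
      (Module.finrank k F : ℝ) ≤ (Module.finrank k N : ℝ) ^ η →
      ∃ g : ℂ → ℂ, Differentiable ℂ g ∧
        ∀ s : ℂ, 1 < s.re → g s = dedekindZeta L s / dedekindZeta F s := by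
  obtain ⟨η, C, n0, hη, hC⟩ := exact_group h
  refine ⟨η, C, n0, hη, ?_⟩
  intro n hn k N _ _ _ _ _ _ e K hK hmov L F hFd
  have hle : (L.restrictScalars k).fixingSubgroup ≤ K.fixingSubgroup := by
    refine IntermediateField.fixingSubgroup_antitone ?_
    intro x hx
    exact L.algebraMap_mem (⟨x, hx⟩ : K)
  refine Pool.Agent.Helper94.Pr.quot_of_av (L.restrictScalars k) F ?_
  intro θ hθ
  refine hC n hn e θ hθ (L.restrictScalars k).fixingSubgroup F.fixingSubgroup ?_
    (fun x hx => hmov x (hle hx)) ?_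
  · exact (Nat.card_le_card_of_injective (Subgroup.inclusion hle)
      (Subgroup.inclusion_injective hle)).trans hK
  · rw [IsGalois.card_aut_eq_finrank, ← IntermediateField.finrank_eq_fixingSubgroup_index]
    exact hFd

end Pool.Agent.Helper90.EX
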